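import Pool.Graph.R_pool_sql_team_seeded_64922ed1.X201.FJ.AComm

/-!
# Homomorphisms from the abstract commensurator
-/

set_option autoImplicit false

namespace Pool.Agent.Helper84.Cr

open Pool.Agent.X201.FJ Pool.Agent.X201.FJ.AC

/-- homomorphisms from the abstract commensurator to a monoid, given by a relation -/
theorem hom_of_rel {K P : Type} [Group K] [Monoid P] (R : (K → K) → P → Prop)
    (ex : ∀ f, IsVA f → ∃ g, R f g)
    (uniq : ∀ f f' g g', IsVA f → IsVA f' → R f g → R f' g' →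
      (∃ A : Subgroup K, A.FiniteIndex ∧ ∀ a ∈ A, f a = f' a) → g = g')
    (one : R id 1)
    (comp : ∀ f f' g g', IsVA f → IsVA f' → R f g → R f' g' → R (f ∘ f') (g * g')) :
    ∃ j : AbsComm K →* P, ∀ f (hf : IsVA f), R f (j (AbsComm.mk f hf)) := by
  classical
  have h1 : ∀ x : AbsComm K, ∃ g, ∃ (f : K → K) (hf : IsVA f), AbsComm.mk f hf = x ∧ R f g := by
    intro x
    induction x using AbsComm.ind with
    | h f hf =>
      obtain ⟨g, hg⟩ := ex f hf
      exact ⟨g, f, hf, rfl, hg⟩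
  choose J F hF hJ hR using h1
  have h2 : ∀ f (hf : IsVA f), R f (J (AbsComm.mk f hf)) := by
    intro f hf
    obtain ⟨g, hg⟩ := ex f hf
    have h3 := AbsComm.mk_eq.1 (hJ (AbsComm.mk f hf))
    rw [uniq _ _ _ _ (hF _) hf (hR (AbsComm.mk f hf)) hg h3]
    exact hg
  have htop : ∀ f : K → K, ∃ A : Subgroup K, A.FiniteIndex ∧ ∀ a ∈ A, f a = f a := fun f =>
    ⟨⊤, inferInstance, fun _ _ => rfl⟩
  refine ⟨{ toFun := J, map_one' := ?_, map_mul' := ?_ }, h2⟩
  · exact uniq _ _ _ _ isVA_one isVA_one (h2 id isVA_one) one (htop _)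
  · intro x y
    induction x using AbsComm.ind with
    | h f hf =>
    induction y using AbsComm.ind with
    | h f' hf' =>
    exact uniq _ _ _ _ (isVA_comp hf' hf) (isVA_comp hf' hf)
      (h2 (f ∘ f') (isVA_comp hf' hf)) (comp f f' _ _ hf hf' (h2 f hf) (h2 f' hf')) (htop _)

section res

variable {K : Type} [Group K]

/-- the subgroup `M` is respected by all virtual automorphisms -/
def Inv (M : Subgroup K) : Prop := ∀ f : K → K, IsVA f →
  ∃ A : Subgroup K, A.FiniteIndex ∧ ∀ a ∈ A, (a ∈ M ↔ f a ∈ M)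

open Classical in
/-- the restriction -/
noncomputable def res (M : Subgroup K) (f : K → K) (x : M) : M :=
  if h : f x ∈ M then ⟨f x, h⟩ else 1

theorem res_of {M : Subgroup K} {f : K → K} {x : M} (h : f x ∈ M) : res M f x = ⟨f x, h⟩ :=
  dif_pos h

theorem res_of_not {M : Subgroup K} {f : K → K} {x : M} (h : f x ∉ M) : res M f x = 1 :=
  dif_neg h

theorem isVA_res {M : Subgroup K} {f : K → K} (hf : IsVA f)
    (hM : ∃ A : Subgroup K, A.FiniteIndex ∧ ∀ a ∈ A, (a ∈ M ↔ f a ∈ M)) : IsVA (res M f) := by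
  obtain ⟨A, φ, hA, hφ, hφr, hfφ⟩ := hf
  obtain ⟨B, hB, hBM⟩ := hM
  let D : Subgroup M := (A ⊓ B).subgroupOf M
  have hD1 : ∀ x : D, ((x : M) : K) ∈ A := fun x => (Subgroup.mem_subgroupOf.1 x.2).1
  have hD2 : ∀ x : D, ((x : M) : K) ∈ B := fun x => (Subgroup.mem_subgroupOf.1 x.2).2
  have hD3 : ∀ x : D, φ ⟨((x : M) : K), hD1 x⟩ ∈ M := by
    intro x
    have h1 := (hBM _ (hD2 x)).1 (x : M).2
    rwa [hfφ ⟨((x : M) : K), hD1 x⟩] at h1
  let χ : D →* M :=
    { toFun := fun x => ⟨φ ⟨((x : M) : K), hD1 x⟩, hD3 x⟩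
      map_one' := by
        apply Subtype.ext
        exact map_one φ
      map_mul' := by
        intro x y
        apply Subtype.ext
        exact map_mul φ ⟨((x : M) : K), hD1 x⟩ ⟨((y : M) : K), hD1 y⟩ }
  have hχ : ∀ x, ((χ x : M) : K) = φ ⟨((x : M) : K), hD1 x⟩ := fun _ => rfl
  refine ⟨D, χ, ?_, ?_, ?_, ?_⟩
  · have : (A ⊓ B).FiniteIndex := inferInstance
    infer_instance
  · intro x y hxy
    have h1 := congrArg (fun z : M => (z : K)) hxy
    simp only [hχ] at h1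
    have h2 := congrArg (fun z : A => (z : K)) (hφ h1)
    exact Subtype.ext (Subtype.ext h2)
  · have h2 : ((B.subgroupOf A).map φ).FiniteIndex := by
      constructor
      rw [Subgroup.index_map, (MonoidHom.ker_eq_bot_iff φ).2 hφ, sup_bot_eq]
      refine mul_ne_zero ?_ hφr.index_ne_zero
      have : (B.subgroupOf A).FiniteIndex := inferInstance
      exact this.index_ne_zero
    have h3 : ((B.subgroupOf A).map φ).subgroupOf M ≤ χ.range := by
      intro y hy
      obtain ⟨a, ha, hay⟩ := Subgroup.mem_subgroupOf.1 hy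
      have haB : (a : K) ∈ B := Subgroup.mem_subgroupOf.1 ha
      have haM : (a : K) ∈ M := by
        rw [hBM _ haB, hfφ a, hay]
        exact y.2
      refine ⟨⟨⟨(a : K), haM⟩, Subgroup.mem_subgroupOf.2 ⟨a.2, haB⟩⟩, ?_⟩
      apply Subtype.ext
      rw [hχ]
      exact hay
    exact Subgroup.finiteIndex_of_le h3
  · intro x
    have h1 : f ((x : M) : K) = φ ⟨((x : M) : K), hD1 x⟩ := hfφ ⟨((x : M) : K), hD1 x⟩
    have h2 : f ((x : M) : K) ∈ M := by rw [h1]; exact hD3 x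
    rw [res_of h2]
    exact Subtype.ext h1

/-- the restriction homomorphism -/
theorem exists_res {M : Subgroup K} (hM : Inv M) : ∃ α : AbsComm K →* AbsComm M,
    ∀ f (hf : IsVA f), α (AbsComm.mk f hf) = AbsComm.mk (res M f) (isVA_res hf (hM f hf)) := by
  obtain ⟨α, hα⟩ := hom_of_rel (K := K) (P := AbsComm M)
    (fun f g => ∃ hf : IsVA f, g = AbsComm.mk (res M f) (isVA_res hf (hM f hf)))
    (fun f hf => ⟨_, hf, rfl⟩)
    (by
      rintro f f' g g' - - ⟨hf, rfl⟩ ⟨hf', rfl⟩ ⟨A, hA, h⟩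
      rw [AbsComm.mk_eq]
      refine ⟨A.subgroupOf M, inferInstance, fun x hx => ?_⟩
      have h1 : f (x : K) = f' x := h x (Subgroup.mem_subgroupOf.1 hx)
      by_cases h2 : f (x : K) ∈ M
      · have h3 : f' (x : K) ∈ M := h1 ▸ h2
        rw [res_of h2, res_of h3]
        exact Subtype.ext h1
      · have h3 : f' (x : K) ∉ M := fun h4 => h2 (h1 ▸ h4)
        rw [res_of_not h2, res_of_not h3])
    ⟨isVA_one, by
      rw [AbsComm.one_def, AbsComm.mk_eq]
      refine ⟨⊤, inferInstance, fun x _ => ?_⟩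
      exact (res_of (M := M) (f := id) (x := x) x.2).symm⟩
    (by
      rintro f f' g g' - - ⟨hf, rfl⟩ ⟨hf', rfl⟩
      refine ⟨isVA_comp hf' hf, ?_⟩
      rw [AbsComm.mk_mul, AbsComm.mk_eq]
      obtain ⟨A, hA, h⟩ := hM f' hf'
      refine ⟨A.subgroupOf M, inferInstance, fun x hx => ?_⟩
      have h1 : f' (x : K) ∈ M := (h x (Subgroup.mem_subgroupOf.1 hx)).1 x.2
      rw [Function.comp_apply, res_of h1]
      rfl)
  refine ⟨α, fun f hf => ?_⟩
  obtain ⟨_, h⟩ := hα f hf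
  exact h

/-- the kernel of the restriction -/
theorem res_one {M : Subgroup K} {f : K → K} {hf : IsVA (res M f)}
    (h : AbsComm.mk (res M f) hf = 1) (hM : ∃ A : Subgroup K, A.FiniteIndex ∧
      ∀ a ∈ A, (a ∈ M ↔ f a ∈ M)) :
    ∃ B : Subgroup K, B ≤ M ∧ B.relIndex M ≠ 0 ∧ ∀ b ∈ B, f b = b := by
  obtain ⟨A, hA, hAM⟩ := hM
  rw [AbsComm.one_def, AbsComm.mk_eq] at h
  obtain ⟨B, hB, h⟩ := h
  refine ⟨(B ⊓ A.subgroupOf M).map M.subtype, ?_, ?_, ?_⟩
  · rintro _ ⟨x, -, rfl⟩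
    exact x.2
  · unfold Subgroup.relIndex
    rw [Subgroup.subgroupOf, Subgroup.comap_map_eq_self_of_injective M.subtype_injective]
    have h1 : (B ⊓ A.subgroupOf M).FiniteIndex := inferInstance
    exact h1.index_ne_zero
  · rintro _ ⟨x, hx, rfl⟩
    have h1 : f (x : K) ∈ M := (hAM x (Subgroup.mem_subgroupOf.1 hx.2)).1 x.2
    have h2 := h x hx.1
    rw [res_of h1] at h2
    exact congrArg Subtype.val h2

/-- subgroups of finite index are respected -/
theorem inv_of_finiteIndex {M : Subgroup K} (hM : M.FiniteIndex) : Inv M := by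
  intro f hf
  obtain ⟨A, hA, h⟩ := isVA_pre hf M hM
  exact ⟨A ⊓ M, inferInstance, fun a ha => ⟨fun _ => h a ha.1, fun _ => ha.2⟩⟩

theorem res_injective {M : Subgroup K} (hM : M.FiniteIndex) :
    ∃ α : AbsComm K →* AbsComm M, Function.Injective α := by
  obtain ⟨α, hα⟩ := exists_res (inv_of_finiteIndex hM)
  refine ⟨α, ?_⟩
  rw [injective_iff_map_eq_one]
  intro x hx
  induction x using AbsComm.ind with
  | h f hf =>
  rw [hα f hf] at hx
  obtain ⟨B, hBM, hB, h⟩ := res_one hx (inv_of_finiteIndex hM f hf)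
  rw [AbsComm.one_def, AbsComm.mk_eq]
  refine ⟨B, ⟨?_⟩, h⟩
  rw [← Subgroup.relIndex_mul_index hBM]
  exact mul_ne_zero hB hM.index_ne_zero

end res

end Pool.Agent.Helper84.Cr
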