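import Pool.Agent.Helper84.Cr.A
import Pool.Graph.R_pool_sql_team_seeded_2aa45f1a.Q152.TA.Rank

/-!
# The action of the abstract commensurator on the virtual characters
-/

set_option autoImplicit false

namespace Pool.Agent.Helper84.Cr

open Pool.Agent.X201.FJ Pool.Agent.X201.FJ.AC Pool.Agent.Q152.TA

theorem isVA_img {K : Type} [Group K] {f : K → K} (hf : IsVA f) (L : Subgroup K)
    (hL : L.FiniteIndex) : ∃ L' : Subgroup K, L'.FiniteIndex ∧ ∀ y ∈ L', ∃ x ∈ L, f x = y := by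
  obtain ⟨A, φ, hA, hφ, hφr, hfφ⟩ := hf
  refine ⟨(L.subgroupOf A).map φ, ?_, ?_⟩
  · constructor
    rw [Subgroup.index_map, (MonoidHom.ker_eq_bot_iff φ).2 hφ, sup_bot_eq]
    refine mul_ne_zero ?_ hφr.index_ne_zero
    have : (L.subgroupOf A).FiniteIndex := inferInstance
    exact this.index_ne_zero
  · rintro _ ⟨a, ha, rfl⟩
    exact ⟨a, Subgroup.mem_subgroupOf.1 ha, hfφ a⟩

section chars

variable (K : Type) [Group K]

/-- the group of the elements which act trivially on the virtual characters -/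
abbrev St : Subgroup K := charStab (⊤ : Subgroup K)

/-- the intersection of the kernels of the virtual characters -/
abbrev Ck : Subgroup K := charKer (⊤ : Subgroup K)

/-- the space of the virtual characters -/
abbrev Vc : Type := Additive (St K) →+ ℚ

variable {K}

/-- evaluation -/
def ev (ψ : Vc K) (x : St K) : ℚ := ψ (Additive.ofMul x)

theorem ev_mul (ψ : Vc K) (x y : St K) : ev ψ (x * y) = ev ψ x + ev ψ y := map_add ψ _ _

theorem ev_inv (ψ : Vc K) (x : St K) : ev ψ x⁻¹ = - ev ψ x := map_neg ψ _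

theorem ev_pow (ψ : Vc K) (x : St K) (m : ℕ) : ev ψ (x ^ m) = m * ev ψ x := hom_pow ψ x m

theorem ev_ext {ψ ψ' : Vc K} (L : Subgroup K) (hL : L.FiniteIndex)
    (h : ∀ x ∈ L, ∃ h : x ∈ St K, ev ψ ⟨x, h⟩ = ev ψ' ⟨x, h⟩) : ψ = ψ' := by
  refine AddMonoidHom.ext (fun x => ?_)
  obtain ⟨x, rfl⟩ : ∃ y : St K, Additive.ofMul y = x := ⟨Additive.toMul x, rfl⟩
  obtain ⟨m, hm, -, hmL⟩ := Subgroup.exists_pow_mem_of_index_ne_zero hL.index_ne_zero (x : K)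
  obtain ⟨h1, h2⟩ := h _ hmL
  have h3 : (⟨(x : K) ^ m, h1⟩ : St K) = x ^ m := Subtype.ext rfl
  rw [h3, ev_pow, ev_pow] at h2
  have hm' : (m : ℚ) ≠ 0 := by exact_mod_cast hm.ne'
  exact mul_left_cancel₀ hm' h2

/-- the elements on which all virtual characters vanish -/
theorem mem_Ck (hst : (St K).FiniteIndex) (x : St K) :
    (x : K) ∈ Ck K ↔ ∀ ψ : Vc K, ev ψ x = 0 := by
  constructor
  · intro hx ψ
    classical
    let χ : K → ℚ := fun y => if h : y ∈ St K then ev ψ ⟨y, h⟩ else 0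
    have hχ : ∀ (y : K) (h : y ∈ St K), χ y = ev ψ ⟨y, h⟩ := fun y h => dif_pos h
    have h1 : AddOn (St K) χ := by
      intro a ha b hb
      rw [hχ a ha, hχ b hb, hχ _ (mul_mem ha hb), ← ev_mul]
      rfl
    have h2 := hx.2 (St K) χ le_top
      (by rw [Subgroup.relIndex_top_right]; exact hst.index_ne_zero) h1 1
      (by rw [pow_one]; exact x.2)
    rw [pow_one, hχ _ x.2] at h2
    exact h2
  · intro hx
    refine ⟨x.2, fun L χ hL hi hχ m hm => ?_⟩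
    obtain ⟨E, hE, hE'⟩ := exists_ext hL hi hχ
    rw [hE' _ x.2 m hm]
    have h1 := hx (mkHom hE)
    have h2 : ev (mkHom hE) x = E x := rfl
    rw [h2] at h1
    rw [h1, mul_zero]

/-- `ψ'` is the transport of `ψ` -/
def Tr (f : K → K) (ψ ψ' : Vc K) : Prop := ∃ L : Subgroup K, L.FiniteIndex ∧
  ∀ x ∈ L, ∃ (h : x ∈ St K) (h' : f x ∈ St K), ev ψ' ⟨f x, h'⟩ = ev ψ ⟨x, h⟩

theorem Tr.uniq {f f' : K → K} (hf : IsVA f) {ψ ψ' ψ'' : Vc K} (h : Tr f ψ ψ') (h' : Tr f' ψ ψ'')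
    (hff : ∃ A : Subgroup K, A.FiniteIndex ∧ ∀ a ∈ A, f a = f' a) : ψ' = ψ'' := by
  obtain ⟨L, hL, h⟩ := h
  obtain ⟨L', hL', h'⟩ := h'
  obtain ⟨A, hA, hff⟩ := hff
  obtain ⟨D, hD, hDL⟩ := isVA_img hf (L ⊓ L' ⊓ A) inferInstance
  refine ev_ext D hD (fun y hy => ?_)
  obtain ⟨x, hx, rfl⟩ := hDL y hy
  obtain ⟨h1, h2, h3⟩ := h x hx.1.1
  obtain ⟨h4, h5, h6⟩ := h' x hx.1.2
  refine ⟨h2, ?_⟩
  have h7 : (⟨f x, h2⟩ : St K) = ⟨f' x, h5⟩ := Subtype.ext (hff x hx.2)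
  rw [h3, h7, h6]

theorem Tr.exists (hst : (St K).FiniteIndex) {f : K → K} (hf : IsVA f) (ψ : Vc K) :
    ∃ ψ', Tr f ψ ψ' := by
  classical
  obtain ⟨g, hg, A, hA, hgf⟩ := isVA_inv hf
  obtain ⟨B, θ, hB, hθ, hθr, hgθ⟩ := hg
  let χ : K → ℚ := fun y => if h : g y ∈ St K then ev ψ ⟨g y, h⟩ else 0
  have hχ : ∀ (y : K) (h : g y ∈ St K), χ y = ev ψ ⟨g y, h⟩ := fun y h => dif_pos h
  have hdfi := dom_finiteIndex B θ (St K) hB hst
  have hdom : ∀ y ∈ dom B θ (St K), g y ∈ St K := by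
    intro y hy
    obtain ⟨h1, h2⟩ := mem_dom.1 hy
    rw [hgθ ⟨y, h1⟩]
    exact h2
  have h1 : AddOn (dom B θ (St K)) χ := by
    intro a ha b hb
    rw [hχ a (hdom a ha), hχ b (hdom b hb), hχ _ (hdom _ (mul_mem ha hb)), ← ev_mul]
    congr 1
    apply Subtype.ext
    obtain ⟨h1, -⟩ := mem_dom.1 ha
    obtain ⟨h2, -⟩ := mem_dom.1 hb
    change g (a * b) = g a * g b
    rw [hgθ ⟨a, h1⟩, hgθ ⟨b, h2⟩, ← map_mul]
    exact hgθ ⟨a * b, mul_mem h1 h2⟩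
  obtain ⟨E, hE, hE'⟩ := exists_ext (N := ⊤) le_top
    (by rw [Subgroup.relIndex_top_right]; exact hdfi.index_ne_zero) h1
  obtain ⟨D, hD, hDf⟩ := isVA_pre hf (St K ⊓ dom B θ (St K)) inferInstance
  refine ⟨mkHom hE, A ⊓ St K ⊓ D, inferInstance, fun x hx => ?_⟩
  have h2 := hDf x hx.2
  refine ⟨hx.1.2, h2.1, ?_⟩
  have h3 := hE' _ h2.1 1 (by rw [pow_one]; exact h2.2)
  rw [pow_one, Nat.cast_one, one_mul] at h3
  change E (f x) = _
  rw [← h3, hχ _ (hdom _ h2.2)]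
  congr 1
  exact Subtype.ext (hgf x hx.1.1)

theorem Tr.add {f : K → K} {ψ₁ ψ₂ ψ₁' ψ₂' : Vc K} (h : Tr f ψ₁ ψ₁') (h' : Tr f ψ₂ ψ₂') :
    Tr f (ψ₁ + ψ₂) (ψ₁' + ψ₂') := by
  obtain ⟨L, hL, h⟩ := h
  obtain ⟨L', hL', h'⟩ := h'
  refine ⟨L ⊓ L', inferInstance, fun x hx => ?_⟩
  obtain ⟨h1, h2, h3⟩ := h x hx.1
  obtain ⟨h4, h5, h6⟩ := h' x hx.2
  refine ⟨h1, h2, ?_⟩
  change ev ψ₁' _ + ev ψ₂' _ = ev ψ₁ _ + ev ψ₂ _
  rw [h3, h6]

theorem Tr.smul {f : K → K} {ψ₁ ψ₁' : Vc K} (h : Tr f ψ₁ ψ₁') (c : ℚ) :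
    Tr f (c • ψ₁) (c • ψ₁') := by
  obtain ⟨L, hL, h⟩ := h
  refine ⟨L, hL, fun x hx => ?_⟩
  obtain ⟨h1, h2, h3⟩ := h x hx
  refine ⟨h1, h2, ?_⟩
  change c • ev ψ₁' _ = c • ev ψ₁ _
  rw [h3]

theorem Tr.comp {f f' : K → K} (hf' : IsVA f') {ψ ψ' ψ'' : Vc K} (h : Tr f' ψ ψ')
    (h' : Tr f ψ' ψ'') : Tr (f ∘ f') ψ ψ'' := by
  obtain ⟨L, hL, h⟩ := h
  obtain ⟨L', hL', h'⟩ := h'
  obtain ⟨A, hA, hAL⟩ := isVA_pre hf' L' hL'
  refine ⟨L ⊓ A, inferInstance, fun x hx => ?_⟩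
  obtain ⟨h1, h2, h3⟩ := h x hx.1
  obtain ⟨h4, h5, h6⟩ := h' (f' x) (hAL x hx.2)
  refine ⟨h1, h5, ?_⟩
  rw [← h3]
  exact h6

/-- **the action on the virtual characters** -/
theorem exists_act (hst : (St K).FiniteIndex) : ∃ β : AbsComm K →* Module.End ℚ (Vc K),
    ∀ f (hf : IsVA f) (ψ : Vc K), Tr f ψ (β (AbsComm.mk f hf) ψ) := by
  refine hom_of_rel (K := K) (P := Module.End ℚ (Vc K)) (fun f T => ∀ ψ, Tr f ψ (T ψ)) ?_ ?_ ?_ ?_
  · intro f hf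
    choose T hT using fun ψ => Tr.exists hst hf ψ
    have htop : ∃ A : Subgroup K, A.FiniteIndex ∧ ∀ a ∈ A, f a = f a :=
      ⟨⊤, inferInstance, fun _ _ => rfl⟩
    exact ⟨{ toFun := T
             map_add' := fun a b => (hT (a + b)).uniq hf ((hT a).add (hT b)) htop
             map_smul' := fun c a => (hT (c • a)).uniq hf ((hT a).smul c) htop }, hT⟩
  · intro f f' g g' hf hf' h h' hff
    refine LinearMap.ext (fun ψ => ?_)
    exact (h ψ).uniq hf (h' ψ) hff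
  · intro ψ
    exact ⟨St K, hst, fun x hx => ⟨hx, hx, rfl⟩⟩
  · intro f f' g g' hf hf' h h' ψ
    exact (h' ψ).comp hf' (h (g' ψ))

/-- a common subgroup for all characters -/
theorem common [hfin : Module.Finite ℚ (Vc K)] {f : K → K}
    {T : Module.End ℚ (Vc K)} (h : ∀ ψ, Tr f ψ (T ψ)) :
    ∃ L : Subgroup K, L.FiniteIndex ∧ ∀ x ∈ L, ∃ (h : x ∈ St K) (h' : f x ∈ St K),
      ∀ ψ, ev (T ψ) ⟨f x, h'⟩ = ev ψ ⟨x, h⟩ := by
  classical
  obtain ⟨s, hs⟩ := hfin.fg_top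
  choose L hL hLf using h
  have h0 : ∃ D : Subgroup K, D.FiniteIndex ∧ ∀ ψ ∈ s, D ≤ L ψ := by
    clear hs
    induction s using Finset.induction_on with
    | empty => exact ⟨⊤, inferInstance, fun ψ hψ => absurd hψ (Finset.notMem_empty ψ)⟩
    | insert a s ha ih =>
      obtain ⟨D, hD, hDs⟩ := ih
      have := hL a
      refine ⟨D ⊓ L a, inferInstance, fun ψ hψ => ?_⟩
      rcases Finset.mem_insert.1 hψ with rfl | h1
      · exact inf_le_right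
      · exact inf_le_left.trans (hDs ψ h1)
  obtain ⟨D, hD, hDs⟩ := h0
  have := hL 0
  refine ⟨D ⊓ L 0, inferInstance, fun x hx => ?_⟩
  obtain ⟨h1, h2, -⟩ := hLf 0 x hx.2
  refine ⟨h1, h2, fun ψ => ?_⟩
  have hψ : ψ ∈ Submodule.span ℚ (s : Set (Vc K)) := by
    rw [hs]
    trivial
  induction hψ using Submodule.span_induction with
  | mem ψ hψ =>
    obtain ⟨h3, h4, h5⟩ := hLf ψ x (hDs ψ hψ hx.1)
    exact h5
  | zero =>
    rw [map_zero]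
    rfl
  | add a b _ _ ha hb =>
    rw [map_add]
    change ev (T a) _ + ev (T b) _ = ev a _ + ev b _
    rw [ha, hb]
  | smul c a _ ha =>
    rw [map_smul]
    change c • ev (T a) _ = c • ev a _
    rw [ha]

/-- **the kernel of the virtual characters is respected** -/
theorem inv_Ck (hst : (St K).FiniteIndex) [hfin : Module.Finite ℚ (Vc K)] : Inv (Ck K) := by
  intro f hf
  obtain ⟨β, hβ⟩ := exists_act hst
  obtain ⟨L, hL, h⟩ := common (hβ f hf)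
  refine ⟨L, hL, fun x hx => ?_⟩
  obtain ⟨h1, h2, h3⟩ := h x hx
  have h4 := mem_Ck hst ⟨x, h1⟩
  have h5 := mem_Ck hst ⟨f x, h2⟩
  rw [h4, h5]
  constructor
  · intro h6 ψ
    have h7 : β (AbsComm.mk f hf) (β (AbsComm.mk f hf)⁻¹ ψ) = ψ := by
      rw [← Module.End.mul_apply, ← map_mul, mul_inv_cancel, map_one, Module.End.one_apply]
    rw [← h7, h3]
    exact h6 _
  · intro h6 ψ
    rw [← h3]
    exact h6 _

end chars

end Pool.Agent.Helper84.Cr
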