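import Pool.Agent.Helper84.Cr.B

/-!
# The kernel of the action
-/

set_option autoImplicit false

namespace Pool.Agent.Helper84.Cr

open Pool.Agent.X201.FJ Pool.Agent.X201.FJ.AC Pool.Agent.Q152.TA

section ker

variable {K : Type} [Group K]

/-- `z` commutes with the elements of a subgroup of finite index of `M` -/
def FC (M : Subgroup K) (z : K) : Prop := ∃ B ≤ M, B.relIndex M ≠ 0 ∧ ∀ b ∈ B, z * b = b * z

/-- `f` is multiplicative on `A`, the identity on a subgroup of finite index of `M`, and the identity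
modulo `M` -/
structure Tame (M : Subgroup K) (f : K → K) (A : Subgroup K) : Prop where
  fi : A.FiniteIndex
  mul : ∀ a ∈ A, ∀ b ∈ A, f (a * b) = f a * f b
  mod : ∀ a ∈ A, f a * a⁻¹ ∈ M
  id : ∃ B : Subgroup K, B ≤ M ∧ B ≤ A ∧ B.relIndex M ≠ 0 ∧ ∀ b ∈ B, f b = b

variable {M A A' : Subgroup K} {f g : K → K}

theorem Tame.one (h : Tame M f A) : f 1 = 1 := by
  have h1 := h.mul 1 A.one_mem 1 A.one_mem
  rw [mul_one] at h1
  exact mul_left_cancel (h1.symm.trans (mul_one _).symm)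

theorem Tame.inv (h : Tame M f A) {x : K} (hx : x ∈ A) : f x⁻¹ = (f x)⁻¹ := by
  have h1 := h.mul x hx x⁻¹ (inv_mem hx)
  rw [mul_inv_cancel, h.one] at h1
  exact eq_inv_of_mul_eq_one_right h1.symm

theorem Tame.pow (h : Tame M f A) {x : K} (hx : x ∈ A) (k : ℕ) : f (x ^ k) = f x ^ k := by
  induction k with
  | zero => rw [pow_zero, pow_zero, h.one]
  | succ k ih => rw [pow_succ, pow_succ, h.mul _ (pow_mem hx k) _ hx, ih]

theorem Tame.fc (hM : M.Normal) (h : Tame M f A) {x : K} (hx : x ∈ A) : FC M (f x * x⁻¹) := by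
  obtain ⟨B, hBM, hBA, hB, hBf⟩ := h.id
  refine ⟨B ⊓ B.comap (MulAut.conj x⁻¹).toMonoidHom, inf_le_left.trans hBM, ?_, ?_⟩
  · refine Subgroup.relIndex_inf_ne_zero hB ?_
    rw [Subgroup.relIndex_comap]
    have h1 : M.map (MulAut.conj x⁻¹).toMonoidHom ≤ M := by
      rintro _ ⟨y, hy, rfl⟩
      exact hM.conj_mem y hy x⁻¹
    exact fun h0 => hB (Subgroup.relIndex_eq_zero_of_le_right h1 h0)
  · intro y hy
    have h2 : x⁻¹ * y * x⁻¹⁻¹ ∈ B := hy.2
    rw [inv_inv] at h2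
    have h3 : y = x * (x⁻¹ * y * x) * x⁻¹ := by group
    have h4 : f y = f x * (x⁻¹ * y * x) * (f x)⁻¹ := by
      conv_lhs => rw [h3]
      rw [h.mul _ (mul_mem hx (hBA h2)) _ (inv_mem hx), h.mul _ hx _ (hBA h2), hBf _ h2, h.inv hx]
    rw [hBf y hy.1] at h4
    calc f x * x⁻¹ * y = f x * (x⁻¹ * y * x) * (f x)⁻¹ * (f x * x⁻¹) := by group
      _ = y * (f x * x⁻¹) := by rw [← h4]

theorem fc_comm (htf : ∀ (x : K) (n : ℕ), 0 < n → x ^ n = 1 → x = 1) {z w : K} (hz : z ∈ M)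
    (hw : w ∈ M) (hzf : FC M z) (hwf : FC M w) : z * w = w * z := by
  obtain ⟨B, -, hB, hBz⟩ := hzf
  obtain ⟨B', -, hB', hBw⟩ := hwf
  let L : Subgroup K := Subgroup.closure {z, w}
  have hLM : L ≤ M := by
    rw [Subgroup.closure_le]
    rintro x (rfl | rfl)
    · exact hz
    · exact hw
  have h1 : (B ⊓ B').relIndex L ≠ 0 := fun h0 =>
    Subgroup.relIndex_inf_ne_zero hB hB' (Subgroup.relIndex_eq_zero_of_le_right hLM h0)
  have h2 : (B ⊓ B').subgroupOf L ≤ Subgroup.center L := by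
    intro x hx
    rw [Subgroup.mem_center_iff]
    intro y
    have hxB : (x : K) ∈ B ⊓ B' := hx
    have h3 : L ≤ Subgroup.centralizer {(x : K)} := by
      rw [Subgroup.closure_le]
      rintro u (rfl | rfl)
      · exact Subgroup.mem_centralizer_singleton_iff.2 (hBz _ hxB.1)
      · exact Subgroup.mem_centralizer_singleton_iff.2 (hBw _ hxB.2)
    exact Subtype.ext (Subgroup.mem_centralizer_singleton_iff.1 (h3 y.2))
  have h3 : ((B ⊓ B').subgroupOf L).FiniteIndex := ⟨h1⟩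
  have h4 : (Subgroup.center L).FiniteIndex := Subgroup.finiteIndex_of_le h2
  let z' : L := ⟨z, Subgroup.subset_closure (Or.inl rfl)⟩
  let w' : L := ⟨w, Subgroup.subset_closure (Or.inr rfl)⟩
  have h5 : MonoidHom.transferCenterPow L (z' * w' * z'⁻¹ * w'⁻¹) = 1 := by
    have hc : MonoidHom.transferCenterPow L z' * MonoidHom.transferCenterPow L w' =
        MonoidHom.transferCenterPow L w' * MonoidHom.transferCenterPow L z' :=
      Subtype.ext (Subgroup.mem_center_iff.1 (MonoidHom.transferCenterPow L w').2 _)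
    rw [map_mul, map_mul, map_mul, map_inv, map_inv, hc, mul_inv_cancel_right, mul_inv_cancel]
  have h6 : (z' * w' * z'⁻¹ * w'⁻¹) ^ (Subgroup.center L).index = 1 := by
    rw [← MonoidHom.transferCenterPow_apply, h5]
    rfl
  have h7 := htf _ _ (Nat.pos_of_ne_zero h4.index_ne_zero) (congrArg Subtype.val h6)
  have h8 : z * w * z⁻¹ * w⁻¹ = 1 := h7
  have h9 := mul_inv_eq_one.1 h8
  exact mul_inv_eq_iff_eq_mul.1 h9

theorem Tame.fix (hM : M.Normal) (htf : ∀ (x : K) (n : ℕ), 0 < n → x ^ n = 1 → x = 1)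
    (h : Tame M f A) {z : K} (hz : z ∈ A) (hzM : z ∈ M) (hzf : FC M z) : f z = z := by
  obtain ⟨B, hBM, hBA, hB, hBf⟩ := h.id
  obtain ⟨k, hk, hkB⟩ := exists_pow hB hzM
  have h1 : f z ^ k = z ^ k := by rw [← h.pow hz, hBf _ hkB]
  have h2 : f z = (f z * z⁻¹) * z := by group
  have h3 : Commute (f z * z⁻¹) z := fc_comm htf (h.mod z hz) hzM (h.fc hM hz) hzf
  rw [h2, h3.mul_pow, mul_eq_right] at h1
  have h4 := htf _ _ hk h1
  exact mul_inv_eq_one.1 h4

/-- **tame maps commute** -/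
theorem Tame.comm (hM : M.Normal) (htf : ∀ (x : K) (n : ℕ), 0 < n → x ^ n = 1 → x = 1)
    (h : Tame M f A) (h' : Tame M g A') (hf : IsVA f) (hg : IsVA g) :
    ∃ D : Subgroup K, D.FiniteIndex ∧ ∀ x ∈ D, f (g x) = g (f x) := by
  have := h.fi
  have := h'.fi
  obtain ⟨D, hD, hDf⟩ := isVA_pre hf (A ⊓ A') inferInstance
  obtain ⟨D', hD', hDg⟩ := isVA_pre hg (A ⊓ A') inferInstance
  refine ⟨A ⊓ A' ⊓ (D ⊓ D'), inferInstance, fun x hx => ?_⟩
  have h1 := hDf x hx.2.1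
  have h2 := hDg x hx.2.2
  have h3 : f (g x * x⁻¹) = g x * x⁻¹ :=
    h.fix hM htf (mul_mem h2.1 (inv_mem hx.1.1)) (h'.mod x hx.1.2) (h'.fc hM hx.1.2)
  have h4 : g (f x * x⁻¹) = f x * x⁻¹ :=
    h'.fix hM htf (mul_mem h1.2 (inv_mem hx.1.2)) (h.mod x hx.1.1) (h.fc hM hx.1.1)
  have h5 : f (g x) = (g x * x⁻¹) * (f x * x⁻¹) * x := by
    have h6 : g x = (g x * x⁻¹) * x := by group
    conv_lhs => rw [h6]
    rw [h.mul _ (mul_mem h2.1 (inv_mem hx.1.1)) _ hx.1.1, h3]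
    group
  have h6 : g (f x) = (f x * x⁻¹) * (g x * x⁻¹) * x := by
    have h7 : f x = (f x * x⁻¹) * x := by group
    conv_lhs => rw [h7]
    rw [h'.mul _ (mul_mem h1.2 (inv_mem hx.1.2)) _ hx.1.2, h4]
    group
  rw [h5, h6, fc_comm htf (h'.mod x hx.1.2) (h.mod x hx.1.1) (h'.fc hM hx.1.2) (h.fc hM hx.1.1)]

end ker

section main

variable {K : Type} [Group K]

theorem normal_Ck : (Ck K).Normal := by
  refine ⟨fun x hx γ => ?_⟩
  have h1 := charKer_cj γ (⊤ : Subgroup K) x hx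
  have h2 : Pool.Agent.Q152.TA.cj γ (⊤ : Subgroup K) = ⊤ := by
    rw [eq_top_iff]
    intro y _
    have h3 := mem_cj (γ := γ) (N := (⊤ : Subgroup K)) (x := γ⁻¹ * y * γ) trivial
    have h4 : γ * (γ⁻¹ * y * γ) * γ⁻¹ = y := by group
    rwa [h4] at h3
  rwa [h2] at h1

theorem tame_of (hst : (St K).FiniteIndex) {M : Subgroup K} (hM : M = Ck K) {f : K → K}
    (hf : IsVA f) (h1 : ∃ B : Subgroup K, B ≤ M ∧ B.relIndex M ≠ 0 ∧ ∀ b ∈ B, f b = b)
    (h2 : ∃ L : Subgroup K, L.FiniteIndex ∧ ∀ x ∈ L, ∃ (h : x ∈ St K) (h' : f x ∈ St K),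
      ∀ ψ : Vc K, ev ψ ⟨f x, h'⟩ = ev ψ ⟨x, h⟩) : ∃ A, Tame M f A := by
  subst hM
  obtain ⟨A, φ, hA, hφ, hφr, hfφ⟩ := hf
  obtain ⟨B, hBM, hB, hBf⟩ := h1
  obtain ⟨L, hL, hLf⟩ := h2
  refine ⟨A ⊓ L, inferInstance, ?_, ?_, B ⊓ (A ⊓ L), inf_le_left.trans hBM, inf_le_right, ?_, ?_⟩
  · intro a ha b hb
    rw [hfφ ⟨a, ha.1⟩, hfφ ⟨b, hb.1⟩, ← map_mul]
    exact hfφ ⟨a * b, mul_mem ha.1 hb.1⟩
  · intro a ha
    obtain ⟨h3, h4, h5⟩ := hLf a ha.2
    refine (mem_Ck hst (⟨f a, h4⟩ * ⟨a, h3⟩⁻¹)).2 (fun ψ => ?_)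
    rw [ev_mul, ev_inv, h5, add_neg_cancel]
  · have h3 : (A ⊓ L).FiniteIndex := inferInstance
    refine Subgroup.relIndex_inf_ne_zero hB ?_
    intro h0
    have h4 := Subgroup.relIndex_eq_zero_of_le_left (le_refl _) h0
    exact (inferInstance : ((A ⊓ L).subgroupOf (Ck K)).FiniteIndex).index_ne_zero h4
  · intro b hb
    exact hBf b hb.1

/-- **the kernel of the action on the virtual characters and of the restriction is commutative** -/
theorem exists_step (htf : ∀ (x : K) (n : ℕ), 0 < n → x ^ n = 1 → x = 1)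
    (hst : (St K).FiniteIndex) [hfin : Module.Finite ℚ (Vc K)] :
    ∃ (α : AbsComm K →* AbsComm (Ck K)) (β : AbsComm K →* (Module.End ℚ (Vc K))ˣ),
      ∀ x y : AbsComm K, α x = 1 → β x = 1 → α y = 1 → β y = 1 → x * y = y * x := by
  obtain ⟨α, hα⟩ := exists_res (inv_Ck (K := K) hst)
  obtain ⟨β, hβ⟩ := exists_act hst
  refine ⟨α, β.toHomUnits, ?_⟩
  have key : ∀ (f : K → K) (hf : IsVA f), α (AbsComm.mk f hf) = 1 →
      β.toHomUnits (AbsComm.mk f hf) = 1 → ∃ A, Tame (Ck K) f A := by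
    intro f hf h1 h2
    have h3 : β (AbsComm.mk f hf) = 1 := congrArg Units.val h2
    refine tame_of hst rfl hf ?_ ?_
    · rw [hα f hf] at h1
      exact res_one h1 (inv_Ck hst f hf)
    · obtain ⟨L, hL, h4⟩ := common (hβ f hf)
      refine ⟨L, hL, fun x hx => ?_⟩
      obtain ⟨h5, h6, h7⟩ := h4 x hx
      refine ⟨h5, h6, fun ψ => ?_⟩
      have h8 := h7 ψ
      rw [h3] at h8
      exact h8
  intro x y h1 h2 h3 h4
  induction x using AbsComm.ind with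
  | h f hf =>
  induction y using AbsComm.ind with
  | h g hg =>
  obtain ⟨A, hA⟩ := key f hf h1 h2
  obtain ⟨A', hA'⟩ := key g hg h3 h4
  rw [AbsComm.mk_mul, AbsComm.mk_mul, AbsComm.mk_eq]
  exact hA.comm normal_Ck htf hA' hf hg

end main

end Pool.Agent.Helper84.Cr
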