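import Pool.Agent.Helper84.Cr.D
import Pool.Agent.Helper84.Cm.L

/-!
# Abstract commensurators of groups of finite rank
-/

set_option autoImplicit false

namespace Pool.Agent.Helper84.Cr

open Pool.Agent.X201.FJ Pool.Agent.X201.FJ.AC Pool.Agent.Q152.TA
open Pool.Agent.Helper84.FJ (SM SM.of_comm SM.of_le D_mono D_le D_succ D_map derivedSeries_eq VSL
  VSL.ext VS SL.units SL.vsl solvable_iff)

/-- a homomorphism to the units of a finite-dimensional algebra whose kernel has derived length at most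
`n` -/
def SbL (n : ℕ) (G : Type) [Group G] : Prop :=
  ∃ (R : Type) (_ : Ring R) (_ : Algebra ℚ R) (_ : Module.Finite ℚ R) (ρ : G →* Rˣ),
    Pool.Agent.Helper84.FJ.D ρ.ker n ≤ ⊥

variable {G H : Type} [Group G] [Group H]

theorem SbL.step {n : ℕ} (h : SbL n H) (α : G →* H) (R : Type) [Ring R] [Algebra ℚ R]
    [Module.Finite ℚ R] (β : G →* Rˣ)
    (hc : ∀ x y : G, α x = 1 → β x = 1 → α y = 1 → β y = 1 → x * y = y * x) : SbL (n + 1) G := by
  obtain ⟨R', _, _, _, ρ, hρ⟩ := h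
  refine ⟨R × R', inferInstance, inferInstance, inferInstance,
    MulEquiv.prodUnits.symm.toMonoidHom.comp (β.prod (ρ.comp α)), ?_⟩
  set σ : G →* (R × R')ˣ := MulEquiv.prodUnits.symm.toMonoidHom.comp (β.prod (ρ.comp α)) with hσ
  have hker : ∀ x : G, x ∈ σ.ker ↔ β x = 1 ∧ ρ (α x) = 1 := by
    intro x
    rw [MonoidHom.mem_ker, hσ]
    change MulEquiv.prodUnits.symm (β x, ρ (α x)) = 1 ↔ _
    rw [MulEquiv.map_eq_one_iff, Prod.mk_eq_one]
  have h1 : Pool.Agent.Helper84.FJ.D σ.ker n ≤ α.ker := by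
    intro x hx
    have h2 : α x ∈ Pool.Agent.Helper84.FJ.D (σ.ker.map α) n := by
      rw [← D_map]
      exact ⟨x, hx, rfl⟩
    have h3 : σ.ker.map α ≤ ρ.ker := by
      rintro _ ⟨y, hy, rfl⟩
      exact ((hker y).1 hy).2
    exact hρ (D_mono h3 n h2)
  rw [D_succ, Subgroup.commutator_le]
  intro x hx y hy
  rw [Subgroup.mem_bot, commutatorElement_eq_one_iff_mul_comm]
  exact hc x y (h1 hx) ((hker x).1 (D_le _ _ hx)).1 (h1 hy) ((hker y).1 (D_le _ _ hy)).1

theorem SbL.of_injective {n : ℕ} (h : SbL n H) (α : G →* H) (hα : Function.Injective α) :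
    SbL n G := by
  obtain ⟨R, _, _, _, ρ, hρ⟩ := h
  refine ⟨R, inferInstance, inferInstance, inferInstance, ρ.comp α, ?_⟩
  intro x hx
  have h2 : α x ∈ Pool.Agent.Helper84.FJ.D ((ρ.comp α).ker.map α) n := by
    rw [← D_map]
    exact ⟨x, hx, rfl⟩
  have h3 : (ρ.comp α).ker.map α ≤ ρ.ker := by
    rintro _ ⟨y, hy, rfl⟩
    exact hy
  have h4 : α x = 1 := hρ (D_mono h3 n h2)
  rw [Subgroup.mem_bot]
  exact (map_eq_one_iff α hα).1 h4

theorem SbL.gl {n : ℕ} (h : SbL n G) : ∃ (m : ℕ) (ρ : G →* Matrix.GeneralLinearGroup (Fin m) ℚ),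
    derivedSeries ρ.ker n = ⊥ := by
  obtain ⟨R, _, _, _, ρ, hρ⟩ := h
  let b : Module.Basis (Fin (Module.finrank ℚ R)) ℚ R := Module.finBasis ℚ R
  let f : R →* Matrix (Fin (Module.finrank ℚ R)) (Fin (Module.finrank ℚ R)) ℚ :=
    ((LinearMap.toMatrixAlgEquiv b).toAlgHom.comp (Algebra.lmul ℚ R) :
      R →ₐ[ℚ] Matrix (Fin (Module.finrank ℚ R)) (Fin (Module.finrank ℚ R)) ℚ)
  have hf : Function.Injective f := by
    intro x y hxy
    have h1 : Algebra.lmul ℚ R x = Algebra.lmul ℚ R y :=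
      (LinearMap.toMatrixAlgEquiv b).injective hxy
    have h2 := LinearMap.congr_fun h1 1
    simpa using h2
  refine ⟨_, (Units.map f).comp ρ, ?_⟩
  have h1 : ((Units.map f).comp ρ).ker = ρ.ker := by
    ext x
    rw [MonoidHom.mem_ker, MonoidHom.mem_ker, MonoidHom.comp_apply,
      map_eq_one_iff _ (Units.map_injective hf)]
  rw [h1, ← Subgroup.map_eq_bot_iff_of_injective _ ρ.ker.subtype_injective, derivedSeries_eq,
    D_map, ← MonoidHom.range_eq_map, Subgroup.range_subtype]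
  exact le_bot_iff.1 hρ

theorem SbL.vsl {n : ℕ} {P : ∀ (K : Type) [Field K], Prop} (hP : P ℚ) (h : SbL n G) : VSL P G := by
  obtain ⟨R, _, _, _, ρ, hρ⟩ := h
  refine VSL.ext ρ ⟨⊤, inferInstance, n, ?_⟩ (SL.vsl (SL.units ℚ hP R))
  intro x hx
  have h2 : (x : G) ∈ Pool.Agent.Helper84.FJ.D ((⊤ : Subgroup ρ.ker).map ρ.ker.subtype) n := by
    rw [← D_map]
    exact ⟨x, hx, rfl⟩
  rw [← MonoidHom.range_eq_map, Subgroup.range_subtype] at h2
  rw [Subgroup.mem_bot]
  exact Subtype.ext (hρ h2)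

/-! ### ranks -/

theorem VD.comap {N : Subgroup H} (f : G →* H) (hf : Function.Injective f) (hN : N ≤ f.range)
    (h : VD N) : VD (N.comap f) := by
  obtain ⟨D, hD, hDi, h2, h3, h4⟩ := h
  refine ⟨D.comap f, Subgroup.comap_mono hD, ?_, ?_, ?_, ?_⟩
  · rw [Subgroup.relIndex_comap, Subgroup.map_comap_eq, inf_eq_right.2 hN]
    exact hDi
  · intro a ha b hb
    apply hf
    rw [map_mul, map_mul]
    exact h2 _ ha _ hb
  · intro n hn a ha
    obtain ⟨b, hb, hba⟩ := h3 n hn _ ha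
    obtain ⟨c, rfl⟩ := hN (hD hb)
    exact ⟨c, hb, hf (by rw [map_pow]; exact hba)⟩
  · intro a ha
    obtain ⟨n, hn, h5⟩ := h4 _ ha
    exact ⟨n, hn, hf (by rw [map_pow, h5, map_one])⟩

theorem rk_comap (f : G →* H) (hf : Function.Injective f) {n : ℕ} {N : Subgroup H} (h : Rk n N) :
    Rk n (N.comap f) := by
  induction n generalizing N with
  | zero =>
    intro N' hN'
    have h1 : N'.map f ≤ N := Subgroup.map_le_iff_le_comap.2 hN'
    have h2 := VD.comap f hf (by
      rintro _ ⟨x, -, rfl⟩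
      exact ⟨x, rfl⟩) (h _ h1)
    rwa [Subgroup.comap_map_eq_self_of_injective hf] at h2
  | succ n ih =>
    obtain ⟨H', K, χ, hH, hi, hχ, hK, hn⟩ := h
    refine ⟨H'.comap f, K.comap f, fun x => χ (f x), Subgroup.comap_mono hH, ?_, ?_, ?_, ih hn⟩
    · rw [Subgroup.relIndex_comap]
      intro h0
      refine hi (Subgroup.relIndex_eq_zero_of_le_right ?_ h0)
      exact Subgroup.map_comap_le _ _
    · intro a ha b hb
      have h1 := hχ _ ha _ hb
      rw [← map_mul] at h1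
      exact h1
    · intro x
      exact hK (f x)

theorem rk_top {n : ℕ} {N : Subgroup G} (h : Rk n N) : Rk n (⊤ : Subgroup N) := by
  have h1 := rk_comap N.subtype N.subtype_injective h
  have h2 : N.comap N.subtype = ⊤ := Subgroup.subgroupOf_self N
  rwa [h2] at h1

/-! ### the theorem -/

theorem comm_trivial {K : Type} [Group K] (hK : Finite K) (x : AbsComm K) : x = 1 := by
  induction x using AbsComm.ind with
  | h f hf =>
  rw [AbsComm.one_def, AbsComm.mk_eq]
  refine ⟨⊥, inferInstance, fun a ha => ?_⟩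
  rw [Subgroup.mem_bot] at ha
  subst ha
  obtain ⟨A, φ, hA, hφ, hφr, hfφ⟩ := hf
  have h1 := hfφ 1
  rw [map_one] at h1
  exact h1

/-- **abstract commensurators of torsion-free groups of finite rank** -/
theorem tf_main (n : ℕ) (K : Type) [Group K] (htf : ∀ (x : K) (m : ℕ), 0 < m → x ^ m = 1 → x = 1)
    (h : Rk n (⊤ : Subgroup K)) : SbL n (AbsComm K) := by
  induction n generalizing K with
  | zero =>
    obtain ⟨D, hD, hDi, -, -, h4⟩ := h ⊤ le_rfl
    have hDb : D = ⊥ := by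
      rw [eq_bot_iff]
      intro x hx
      obtain ⟨m, hm, h5⟩ := h4 x hx
      exact Subgroup.mem_bot.2 (htf x m (Nat.pos_of_ne_zero hm) h5)
    rw [hDb, Subgroup.relIndex_top_right] at hDi
    have h1 : (⊥ : Subgroup K).FiniteIndex := ⟨hDi⟩
    have h2 : Finite (K ⧸ (⊥ : Subgroup K)) := inferInstance
    have h3 : Finite K := Finite.of_equiv _ (QuotientGroup.quotientBot (G := K)).toEquiv
    exact ⟨ℚ, inferInstance, inferInstance, inferInstance, 1,
      fun x _ => Subgroup.mem_bot.2 (comm_trivial h3 x)⟩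
  | succ n ih =>
    have h1 := h.charStab
    rw [Subgroup.relIndex_top_right] at h1
    have hst : (St K).FiniteIndex := ⟨h1⟩
    have hfin : Module.Finite ℚ (Vc K) := ((h.sub (le_top : St K ≤ ⊤)).fin).1
    obtain ⟨α, β, hαβ⟩ := exists_step htf hst
    refine SbL.step (ih (Ck K) ?_ (rk_top h.charKer)) α _ β hαβ
    intro x m hm hx
    exact Subtype.ext (htf x m hm (congrArg Subtype.val hx))

/-- **abstract commensurators of virtually torsion-free groups of finite rank** -/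
theorem vtf_main (n : ℕ) (E : Type) [Group E] (h : Rk n (⊤ : Subgroup E))
    (hv : ∃ E₀ : Subgroup E, E₀.FiniteIndex ∧ ∀ g ∈ E₀, IsOfFinOrder g → g = 1) :
    SbL n (AbsComm E) := by
  obtain ⟨E₀, hE₀, htf⟩ := hv
  obtain ⟨α, hα⟩ := res_injective hE₀
  refine (tf_main n E₀ ?_ (rk_top (h.sub le_top))).of_injective α hα
  intro x m hm hx
  refine Subtype.ext (htf x x.2 ?_)
  rw [isOfFinOrder_iff_pow_eq_one]
  exact ⟨m, hm, congrArg Subtype.val hx⟩

end Pool.Agent.Helper84.Cr
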