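import Pool.Agent.Helper84.Cr.G

/-!
# Groups with bounded first Betti numbers of the subgroups of finite index
-/

set_option autoImplicit false

namespace Pool.Agent.Helper84.Cr

open Pool.Agent.X201.FJ Pool.Agent.X201.FJ.AC Pool.Agent.Q152.TA Pool.Agent.Y462.SS
open Pool.Agent.Q152.WP Pool.Agent.Q91.FJ
open Pool.Agent.Helper84.FJ (units_mem)

variable {C : ∀ (G : Type) [Group G], Prop}

/-- the first Betti numbers of the subgroups of finite index are bounded -/
def BoundedBetti (K : Type) [Group K] : Prop := ∃ b : ℕ, ∀ L : Subgroup K, L.FiniteIndex →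
  Module.Finite ℚ (Additive L →+ ℚ) ∧ Module.finrank ℚ (Additive L →+ ℚ) ≤ b

theorem BoundedBetti.st {K : Type} [Group K] (h : BoundedBetti K) : (St K).FiniteIndex := by
  classical
  obtain ⟨n, hb⟩ := h
  let r : Subgroup K → ℕ := fun H => Module.finrank ℚ (Additive H →+ ℚ)
  obtain ⟨H, hHi, hmax⟩ := (measure (fun H : Subgroup K => n - r H)).wf.has_min
    {H : Subgroup K | H.FiniteIndex} ⟨⊤, (inferInstance : (⊤ : Subgroup K).FiniteIndex)⟩
  have hHi' : H.FiniteIndex := hHi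
  have hmax' : ∀ H' : Subgroup K, H'.FiniteIndex → r H' ≤ r H := by
    intro H' h2
    have h3 : ¬ (n - r H' < n - r H) := hmax H' h2
    have h4 : r H' ≤ n := (hb H' h2).2
    omega
  have hle : H ≤ St K := by
    intro g hg
    refine ⟨trivial, fun L χ hL hi hχ x hx hx' => ?_⟩
    rw [Subgroup.relIndex_top_right] at hi
    have hLi : L.FiniteIndex := ⟨hi⟩
    have h1 : (H ⊓ L).FiniteIndex := inferInstance
    have h1' : (H ⊓ L).relIndex H ≠ 0 := fun h0 =>
      h1.index_ne_zero (by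
        rw [← Subgroup.relIndex_mul_index (inf_le_left : H ⊓ L ≤ H), h0, zero_mul])
    obtain ⟨m, hm, h2, h3⟩ := exists_pow₂ (H := H ⊓ L) (N := (⊤ : Subgroup K))
      (by rw [Subgroup.relIndex_top_right]; exact h1.index_ne_zero)
      (show x ∈ (⊤ : Subgroup K) from trivial) (show g * x * g⁻¹ ∈ (⊤ : Subgroup K) from trivial)
    rw [← conj_pow'] at h3
    haveI := (hb H hHi').1
    haveI := (hb (H ⊓ L) h1).1
    have hinj := resHom_injective (inf_le_left : H ⊓ L ≤ H) h1'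
    have hr : r H = r (H ⊓ L) := le_antisymm (LinearMap.finrank_le_finrank_of_injective hinj)
      (hmax' _ h1)
    have hsurj : Function.Surjective (resHom (inf_le_left : H ⊓ L ≤ H)) :=
      (LinearMap.injective_iff_surjective_of_finrank_eq_finrank hr).1 hinj
    obtain ⟨ψ, hψ⟩ := hsurj (mkHom (hχ.mono (inf_le_right : H ⊓ L ≤ L)))
    have h4 : ∀ (y : K) (hy : y ∈ H ⊓ L), χ y = ψ (Additive.ofMul (⟨y, hy.1⟩ : H)) := by
      intro y hy
      exact (DFunLike.congr_fun hψ (Additive.ofMul (⟨y, hy⟩ : (H ⊓ L : Subgroup K)))).symm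
    have h5 : χ (g * x ^ m * g⁻¹) = χ (x ^ m) := by
      rw [h4 _ h3, h4 _ h2]
      have e : (⟨g * x ^ m * g⁻¹, h3.1⟩ : H) = ⟨g, hg⟩ * ⟨x ^ m, h2.1⟩ * (⟨g, hg⟩)⁻¹ := rfl
      rw [e, ofMul_mul, ofMul_mul, map_add, map_add, ofMul_inv, map_neg]
      ring
    rw [conj_pow', hχ.pow hx', hχ.pow hx] at h5
    have hm' : (m : ℚ) ≠ 0 := by exact_mod_cast hm.ne'
    exact mul_left_cancel₀ hm' h5
  exact Subgroup.finiteIndex_of_le hle

/-- **the step for general torsion-free groups** -/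
theorem betti_step {K : Type} [Group K] (htf : ∀ x : K, IsOfFinOrder x → x = 1)
    (h : BoundedBetti K) :
    ∃ (m : ℕ) (Φ : AbsComm K →* Matrix.GeneralLinearGroup (Fin m) ℚ × AbsComm (Ck K)),
      ∀ x y : AbsComm K, Φ x = 1 → Φ y = 1 → x * y = y * x := by
  have hst := h.st
  obtain ⟨n, hb⟩ := h
  have hfin : Module.Finite ℚ (Vc K) := (hb (St K) hst).1
  obtain ⟨α, β, hαβ⟩ := exists_step (fun x m hm hx => htf x (by
    rw [isOfFinOrder_iff_pow_eq_one]
    exact ⟨m, hm, hx⟩)) hst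
  let b : Module.Basis (Fin (Module.finrank ℚ (Vc K))) ℚ (Vc K) := Module.finBasis ℚ (Vc K)
  let e := (LinearMap.toMatrixAlgEquiv b).toMulEquiv
  let f : (Module.End ℚ (Vc K))ˣ ≃* Matrix.GeneralLinearGroup (Fin (Module.finrank ℚ (Vc K))) ℚ :=
    Units.mapEquiv e
  refine ⟨_, (f.toMonoidHom.comp β).prod α, fun x y hx hy => ?_⟩
  have h1 : ∀ z, ((f.toMonoidHom.comp β).prod α) z = 1 → β z = 1 ∧ α z = 1 := by
    intro z hz
    rw [MonoidHom.prod_apply, Prod.mk_eq_one] at hz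
    refine ⟨?_, hz.2⟩
    have h2 : f (β z) = 1 := hz.1
    exact (MulEquiv.map_eq_one_iff f).1 h2
  exact hαβ x y (h1 x hx).2 (h1 x hx).1 (h1 y hy).2 (h1 y hy).1

/-- membership in the class -/
theorem betti_C (hC : Closed C) (hE : ExtClosed C) (hS : HasSolvable C)
    (hQ : ∀ n : ℕ, C (Matrix.GeneralLinearGroup (Fin n) ℚ)) {K : Type} [Group K]
    (htf : ∀ x : K, IsOfFinOrder x → x = 1) (h : BoundedBetti K) (hk : C (AbsComm (Ck K))) :
    C (AbsComm K) := by
  obtain ⟨m, Φ, hΦ⟩ := betti_step htf h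
  refine solvable_kernel hE hS Φ.rangeRestrict Φ.rangeRestrict_surjective
    (hC.of_injective _ _ Φ.range.subtype Φ.range.subtype_injective
      (hC.prod _ _ (hQ m) hk)) ?_
  refine Group.isSolvable_of_comm ?_
  rintro ⟨x, hx⟩ ⟨y, hy⟩
  exact Subtype.ext (hΦ x y (congrArg Subtype.val hx) (congrArg Subtype.val hy))

end Pool.Agent.Helper84.Cr
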