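import Pool.Agent.Helper84.Cr.H
import Pool.Graph.R_pool_sql_team_seeded_3997aac3.Results.MP_59dd5b_al.VirtualCentralizers

/-!
# Commensurated subgroups of finite rank, and groups acting on trees
-/

set_option autoImplicit false

namespace Pool.Agent.Helper84.Cr

open Pool.Agent.X201.FJ Pool.Agent.X201.FJ.AC Pool.Agent.Q152.TA Pool.Agent.Y462.SS
open Pool.Agent.Q152.WP Pool.Agent.Q91.FJ
open Q182.Cyl (ClosedA Est)
open scoped Pointwise
open Pool.Agent.Helper84.Cm (cmap cmap_eq_one dich lv_quot rk_of_finite)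
open Pool.Agent.Helper84.FJ (SM SM.of_comm SM.of_le D_mono D_le D_succ D_map derivedSeries_eq VSL
  VSL.ext VS SL.units SL.vsl solvable_iff VSL.mem LV LV.of_vsl HasLinear)

variable {C : ∀ (G : Type) [Group G], Prop}

/-- a finite series: a subgroup of finite index has a homomorphism to `ℚ` whose kernel is the next
term, and the last term is finite -/
def FiniteRank {Γ : Type} [Group Γ] : ℕ → Subgroup Γ → Prop
  | 0, N => Finite N
  | n + 1, N => ∃ (H : Subgroup Γ) (χ : H →* Multiplicative ℚ), H ≤ N ∧ H.relIndex N ≠ 0 ∧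
      FiniteRank n (χ.ker.map H.subtype)

theorem FiniteRank.rk {Γ : Type} [Group Γ] {n : ℕ} {N : Subgroup Γ} (h : FiniteRank n N) :
    Rk n N := by
  classical
  induction n generalizing N with
  | zero => exact rk_of_finite N h
  | succ n ih =>
    obtain ⟨H, χ, hH, hi, hn⟩ := h
    refine ⟨H, χ.ker.map H.subtype, fun x => if h : x ∈ H then Multiplicative.toAdd (χ ⟨x, h⟩) else 0,
      hH, hi, ?_, ?_, ih hn⟩
    · intro a ha b hb
      simp only
      rw [dif_pos ha, dif_pos hb, dif_pos (mul_mem ha hb)]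
      have h1 : (⟨a * b, mul_mem ha hb⟩ : H) = ⟨a, ha⟩ * ⟨b, hb⟩ := rfl
      rw [h1, map_mul]
      rfl
    · intro x
      constructor
      · rintro ⟨y, hy, rfl⟩
        refine ⟨y.2, ?_⟩
        simp only
        have h0 : H.subtype y ∈ H := y.2
        rw [dif_pos h0]
        have h1 : χ y = 1 := hy
        have h2 : (⟨H.subtype y, h0⟩ : H) = y := rfl
        rw [h2, h1]
        rfl
      · rintro ⟨hx, h1⟩
        simp only at h1
        rw [dif_pos hx] at h1
        exact ⟨⟨x, hx⟩, h1, rfl⟩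

/-- representations of groups with a commensurated subgroup -/
theorem commensurated_rep {Γ : Type} [Group Γ] (E : Subgroup Γ) (hE : Commensurated E) {n : ℕ}
    (h : SbL n (AbsComm E)) : ∃ (m : ℕ) (ρ : Γ →* Matrix.GeneralLinearGroup (Fin m) ℚ),
      ∀ x ∈ derivedSeries ρ.ker n, ∃ A : Subgroup Γ, A ≤ E ∧ A.relIndex E ≠ 0 ∧
        ∀ a ∈ A, (x : Γ) * a = a * x := by
  obtain ⟨m, ρ, hρ⟩ := h.gl
  refine ⟨m, ρ.comp (commMap hE), fun x hx => commMap_eq_one hE x ?_⟩
  let j : (ρ.comp (commMap hE)).ker →* ρ.ker :=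
    ((commMap hE).comp (Subgroup.subtype _)).codRestrict _ (fun y => y.2)
  have h1 : j x ∈ derivedSeries ρ.ker n := (map_derivedSeries_le_derivedSeries j n) ⟨x, hx, rfl⟩
  rw [hρ] at h1
  exact congrArg Subtype.val (Subgroup.mem_bot.1 h1)

/-- quotients of subgroups of the abstract commensurator -/
theorem quot_C (hC : Closed C) (hE : ExtClosed C) (hS : HasSolvable C)
    (hQ : ∀ n : ℕ, C (Matrix.GeneralLinearGroup (Fin n) ℚ)) {n : ℕ} {G : Type} [Group G]
    (h : SbL n G) (H : Subgroup G) (S : Subgroup H) [S.Normal] (hVS : VSolv S) : C (H ⧸ S) :=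
  lv_quot hC hE hS (LV.of_vsl (h.vsl hQ)) H S hVS

/-- the homomorphism from the commensurator of an edge stabilizer -/
theorem comG_of {G V : Type} [Group G] [MulAction G V] {v w : V}
    (h : C (AbsComm (Est G v w))) : Q27.VC.ComG C G v w := by
  set E := Est G v w with hEdef
  have hN : ∀ g ∈ Subgroup.Commensurable.commensurator E,
      (E.comap (MulAut.conj g).toMonoidHom).relIndex E ≠ 0 := by
    intro g hg
    have h1 := (Subgroup.Commensurable.commensurator_mem_iff E g⁻¹).1 (inv_mem hg)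
    have h2 : E.comap (MulAut.conj g).toMonoidHom = ConjAct.toConjAct g⁻¹ • E := by
      ext x
      rw [Subgroup.mem_pointwise_smul_iff_inv_smul_mem, ← ConjAct.toConjAct_inv, inv_inv,
        ConjAct.toConjAct_smul]
      exact Iff.rfl
    rw [h2]
    exact h1.1
  refine ⟨AbsComm E, inferInstance, cmap hN, h, fun g hg => ?_⟩
  obtain ⟨A, hA, h1⟩ := cmap_eq_one hN g hg
  have h2 : A.map E.subtype ≤ Subgroup.centralizer {(g : G)} := by
    rintro _ ⟨a, ha, rfl⟩
    exact Subgroup.mem_centralizer_singleton_iff.2 (h1 a ha).symm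
  have h3 : (A.map E.subtype).relIndex E ≠ 0 := by
    unfold Subgroup.relIndex
    rw [Subgroup.subgroupOf, Subgroup.comap_map_eq_self_of_injective E.subtype_injective]
    exact hA.index_ne_zero
  change (Subgroup.centralizer {(g : G)}).relIndex E ≠ 0
  exact fun h0 => h3 (Subgroup.relIndex_eq_zero_of_le_left h2 h0)

/-- **trees** -/
theorem trees (hA : ClosedA C) (hS : HasSolvable C)
    (hQ : ∀ n : ℕ, C (Matrix.GeneralLinearGroup (Fin n) ℚ))
    (G V D₀ : Type) [Group G] [Group D₀] [MulAction G V] (T : SimpleGraph V) (hT : T.IsTree)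
    (hadj : ∀ (g : G) (v w : V), T.Adj v w → T.Adj (g • v) (g • w))
    (hinv : ∀ (g : G) (v w : V), T.Adj v w → ¬ (g • v = w ∧ g • w = v))
    (hst : ∀ v : V, C (MulAction.stabilizer G v))
    (hloc : ∀ v w w' : V, T.Adj v w → T.Adj v w' →
      Subgroup.Commensurable (Est G v w) (Est G v w') ∨ Finite ↥(Est G v w ⊓ Est G v w'))
    (ρ₀ : G →* D₀) (hD₀ : C D₀)
    (hcen : ∀ v w : V, T.Adj v w → Infinite (Est G v w) →
      Q27.VC.CenV G ρ₀.ker v w ∨ Q27.VC.PC G ρ₀.ker v)
    (hfr : ∀ v w : V, T.Adj v w → Infinite (Est G v w) → ∃ n : ℕ, SbL n (AbsComm (Est G v w))) :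
    C G := by
  have hE := extClosed_of hA.base
  have hC := hA.base.base
  refine (Pool.Agent.Results.MP_59dd5b_al.VirtualCentralizers.result C hA
    (fun G _ h => hS G ⟨⟨2, h⟩⟩) G V D₀ T hT hadj hinv hst hloc ρ₀ hD₀).1 ?_ ?_
  · intro v w hvw hinf
    rcases hcen v w hvw hinf with h | h
    · exact h
    · exact h.cen w
  · intro v w hvw hinf
    obtain ⟨n, hn⟩ := hfr v w hvw hinf
    exact Or.inl (comG_of (abs_C hC hE hS hQ hn))

end Pool.Agent.Helper84.Cr
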