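import Pool.Graph.R_seed8.Helper270.Tree

/-!
# Ping-pong on trees
-/

set_option autoImplicit false
set_option maxHeartbeats 4000000

namespace Pool.Agent.Helper84.Cr

open Pool.Agent.Helper270.Tree

section metric

variable {V : Type} {T : SimpleGraph V}

/-- `i` is the index of the projection of `z` to the line -/
def Pr (T : SimpleGraph V) (L : ℤ → V) (z : V) (i : ℤ) : Prop :=
  ∀ k, T.dist z (L k) = T.dist z (L i) + (k - i).natAbs

theorem Pr.uniq {L : ℤ → V} {z : V} {i j : ℤ} (hi : Pr T L z i) (hj : Pr T L z j) : i = j := by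
  have h1 := hi j
  have h2 := hj i
  omega

theorem pr_self (hT : T.IsTree) {L : ℤ → V} (hL : IsLine T L) (i : ℤ) : Pr T L (L i) i := by
  intro k
  rw [hL.dist hT, SimpleGraph.dist_self]
  omega

theorem two_proj (hT : T.IsTree) {L : ℤ → V} (hL : IsLine T L) {x z : V} {i j : ℤ}
    (hi : Pr T L x i) (hj : Pr T L z j) (hij : i ≠ j) :
    T.dist x z = T.dist x (L i) + (j - i).natAbs + T.dist (L j) z := by
  obtain ⟨q, hq0, hqn, hadj, hd, hnb⟩ := exists_geod hT (L j) z
  set n := T.dist (L j) z with hn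
  have hn' : T.dist z (L j) = n := by rw [SimpleGraph.dist_comm]
  have e0 : T.dist x (L j) = T.dist x (L i) + (j - i).natAbs := hi j
  have key : T.dist x z = T.dist x (L j) + n := by
    have h1 := nb hT q n hadj hnb x (by
      intro hn1
      rw [hq0]
      rcases lt_or_gt_of_ne hij with h | h
      · have hne : L (j - 1) ≠ q 1 := by
          intro hcon
          have f1 := (hd 1 (by omega)).2
          have f2 := hj (j - 1)
          rw [hcon, SimpleGraph.dist_comm, f1, hn'] at f2
          omega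
        have hadj1 : T.Adj (L j) (q 1) := by
          have := hadj 0 (by omega)
          rwa [hq0] at this
        have hadj2 : T.Adj (L (j - 1)) (L j) := by
          have := hL.adj (j - 1)
          rwa [show j - 1 + 1 = j from by ring] at this
        have e1 := hi (j - 1)
        exact junction hT hadj2 hadj1 hne (by omega)
      · have hne : L (j + 1) ≠ q 1 := by
          intro hcon
          have f1 := (hd 1 (by omega)).2
          have f2 := hj (j + 1)
          rw [hcon, SimpleGraph.dist_comm, f1, hn'] at f2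
          omega
        have hadj1 : T.Adj (L j) (q 1) := by
          have := hadj 0 (by omega)
          rwa [hq0] at this
        have e1 := hi (j + 1)
        exact junction hT (hL.adj j).symm hadj1 hne (by omega)) n le_rfl
    rw [hqn, hq0] at h1
    exact h1
  rw [key, e0]

/-- lines with bounded intersection have bounded projections -/
theorem small_proj (hT : T.IsTree) {L L' : ℤ → V} (hL : IsLine T L) (hL' : IsLine T L')
    (hfin : {i : ℤ | ∃ j, L i = L' j}.Finite) : ∃ (i₀ : ℤ) (R : ℕ), ∀ (z : V) (p q : ℤ),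
      Pr T L z p → Pr T L' z q → (p - i₀).natAbs < R ∨ q.natAbs < R := by
  classical
  obtain ⟨i₀, hi₀⟩ := hL.exists_proj hT (L' 0)
  obtain ⟨c, hc⟩ : ∃ c : ℕ, ∀ i : ℤ, (∃ j, L i = L' j) → i.natAbs ≤ c := by
    obtain ⟨c, hc⟩ := (hfin.image Int.natAbs).bddAbove
    exact ⟨c, fun i hi => hc ⟨i, hi, rfl⟩⟩
  obtain ⟨e, he⟩ : ∃ e : ℕ, T.dist (L' 0) (L i₀) = e := ⟨_, rfl⟩
  obtain ⟨k, hk⟩ : ∃ k : ℕ, k = c + i₀.natAbs + 1 := ⟨_, rfl⟩
  refine ⟨i₀, e + k, fun z p q hp hq => ?_⟩
  by_contra hcon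
  push Not at hcon
  obtain ⟨h1, h2⟩ := hcon
  have hne : i₀ ≠ p := by
    intro h
    rw [← h, sub_self] at h1
    simp at h1
    omega
  have e1 := two_proj hT hL (x := L' 0) (z := z) hi₀ hp hne
  rw [he] at e1
  -- the point of `L`
  obtain ⟨j, hj1, hj2⟩ : ∃ j : ℤ, (j - i₀).natAbs = k ∧ (p - j).natAbs + k = (p - i₀).natAbs := by
    rcases le_total i₀ p with h | h
    · exact ⟨i₀ + k, by omega, by omega⟩
    · exact ⟨i₀ - k, by omega, by omega⟩
  have e2 : T.dist (L' 0) (L j) = e + k := by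
    rw [hi₀ j, hj1, he]
  have e3 : T.dist (L j) z = (p - j).natAbs + T.dist (L p) z := by
    have := hp j
    rw [SimpleGraph.dist_comm, this, SimpleGraph.dist_comm (u := z)]
    omega
  -- the point of `L'`
  obtain ⟨j', hj'1, hj'2⟩ : ∃ j' : ℤ, j'.natAbs = e + k ∧ (q - j').natAbs + (e + k) = q.natAbs := by
    rcases le_total 0 q with h | h
    · exact ⟨(e + k : ℕ), by omega, by omega⟩
    · exact ⟨-(e + k : ℕ), by omega, by omega⟩
  have e4 : T.dist (L' 0) (L' j') = e + k := by
    rw [hL'.dist hT]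
    omega
  have e5 := hq j'
  have e6 := hq 0
  have e7 : T.dist (L' 0) z = T.dist z (L' q) + q.natAbs := by
    rw [SimpleGraph.dist_comm, e6]
    omega
  have e8 : T.dist (L' j') z = T.dist z (L' q) + (q - j').natAbs := by
    rw [SimpleGraph.dist_comm, e5]
    omega
  have h3 : L j = L' j' := by
    refine geod_unique hT (x := L' 0) (y := z) ?_ ?_ (by rw [e2, e4])
    · rw [e2, e3, e1]
      omega
    · rw [e4, e8, e7]
      omega
  have h4 := hc j ⟨j', h3⟩
  omega

end metric

section action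

variable {G V : Type} [Group G] [MulAction G V] {T : SimpleGraph V}

theorem pr_smul (h : TreeAct G T) {g : G} {L : ℤ → V} {l : ℕ} (hax : IsAxis T g L l) {z : V} {i : ℤ}
    (hi : Pr T L z i) (m : ℤ) : Pr T L (g ^ m • z) (i + m * l) := by
  intro k
  have h1 : ∀ k : ℤ, T.dist (g ^ m • z) (L k) = T.dist z (L (k - m * l)) := by
    intro k
    rw [h.dist_smul_left, ← zpow_neg, hax.smul_zpow]
    congr 2
    ring
  rw [h1, h1, hi, hi (i + m * l - m * l)]
  have h2 : (i + m * l - m * l - i : ℤ) = 0 := by ring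
  have h3 : (k - m * l - i : ℤ) = k - (i + m * l) := by ring
  rw [h2, h3]
  simp

/-- **ping-pong** -/
theorem ping_pong (h : TreeAct G T) {a b : G} {L L' : ℤ → V} {l l' : ℕ} (ha : IsAxis T a L l)
    (hb : IsAxis T b L' l') (hfin : {i : ℤ | ∃ j, L i = L' j}.Finite) :
    ∃ m : ℕ, 0 < m ∧ Function.Injective
      (FreeGroup.lift (fun i : Bool => if i then a ^ m else b ^ m) : FreeGroup Bool →* G) := by
  classical
  obtain ⟨i₀, R, hR⟩ := small_proj h.isTree ha.line hb.line hfin
  choose p hp using fun z => ha.line.exists_proj h.isTree z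
  choose q hq using fun z => hb.line.exists_proj h.isTree z
  have hp' : ∀ z, Pr T L z (p z) := hp
  have hq' : ∀ z, Pr T L' z (q z) := hq
  have hla : (1 : ℤ) ≤ l := by exact_mod_cast ha.pos
  have hlb : (1 : ℤ) ≤ l' := by exact_mod_cast hb.pos
  obtain ⟨m, hm⟩ : ∃ m : ℕ, m = 2 * R + 1 := ⟨_, rfl⟩
  have hmc : (m : ℤ) = 2 * R + 1 := by
    rw [hm]
    push_cast
    ring
  have hpm : ∀ (s : ℤ) (z : V), p (a ^ s • z) = p z + s * l := fun s z =>
    (hp' _).uniq (pr_smul h ha (hp' z) s)
  have hqm : ∀ (s : ℤ) (z : V), q (b ^ s • z) = q z + s * l' := fun s z =>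
    (hq' _).uniq (pr_smul h hb (hq' z) s)
  have hm1 : (2 * R + 1 : ℤ) ≤ m * l := by
    have : (m : ℤ) * 1 ≤ (m : ℤ) * l := mul_le_mul_of_nonneg_left hla (by positivity)
    linarith
  have hm2 : (2 * R + 1 : ℤ) ≤ m * l' := by
    have : (m : ℤ) * 1 ≤ (m : ℤ) * l' := mul_le_mul_of_nonneg_left hlb (by positivity)
    linarith
  have ham : ∀ z : V, p (a ^ m • z) = p z + m * l := by
    intro z
    rw [← zpow_natCast, hpm]
  have ham' : ∀ z : V, p ((a ^ m)⁻¹ • z) = p z - m * l := by
    intro z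
    rw [← zpow_natCast, ← zpow_neg, hpm]
    ring
  have hbm : ∀ z : V, q (b ^ m • z) = q z + m * l' := by
    intro z
    rw [← zpow_natCast, hqm]
  have hbm' : ∀ z : V, q ((b ^ m)⁻¹ • z) = q z - m * l' := by
    intro z
    rw [← zpow_natCast, ← zpow_neg, hqm]
    ring
  let X : Bool → Set V := fun i => if i then {z | (R : ℤ) ≤ p z - i₀} else {z | (R : ℤ) ≤ q z}
  let Y : Bool → Set V := fun i => if i then {z | p z - i₀ ≤ -R} else {z | q z ≤ -R}
  have hcross : ∀ z, (p z - i₀).natAbs < R ∨ (q z).natAbs < R := fun z => hR z _ _ (hp' z) (hq' z)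
  have hRpos : 0 < R := by
    obtain ⟨v⟩ := h.isTree.connected.nonempty
    rcases hcross v with h1 | h1 <;> omega
  have hXt : ∀ z, z ∈ X true ↔ (R : ℤ) ≤ p z - i₀ := fun _ => Iff.rfl
  have hXf : ∀ z, z ∈ X false ↔ (R : ℤ) ≤ q z := fun _ => Iff.rfl
  have hYt : ∀ z, z ∈ Y true ↔ p z - i₀ ≤ -R := fun _ => Iff.rfl
  have hYf : ∀ z, z ∈ Y false ↔ q z ≤ -R := fun _ => Iff.rfl
  refine ⟨m, by omega, FreeGroup.injective_lift_of_ping_pong
    (fun i : Bool => if i then a ^ m else b ^ m) X Y ?_ ?_ ?_ ?_ ?_ ?_⟩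
  · rintro (_ | _)
    · refine ⟨L' R, ?_⟩
      rw [hXf, (hq' (L' R)).uniq (pr_self h.isTree hb.line R)]
    · refine ⟨L (i₀ + R), ?_⟩
      rw [hXt, (hp' (L (i₀ + R))).uniq (pr_self h.isTree ha.line (i₀ + R))]
      omega
  · rintro (_ | _) (_ | _) hij
    · exact absurd rfl hij
    · refine Set.disjoint_left.2 (fun z h1 h2 => ?_)
      rw [hXf] at h1
      rw [hXt] at h2
      rcases hcross z with h3 | h3 <;> omega
    · refine Set.disjoint_left.2 (fun z h1 h2 => ?_)
      rw [hXt] at h1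
      rw [hXf] at h2
      rcases hcross z with h3 | h3 <;> omega
    · exact absurd rfl hij
  · rintro (_ | _) (_ | _) hij
    · exact absurd rfl hij
    · refine Set.disjoint_left.2 (fun z h1 h2 => ?_)
      rw [hYf] at h1
      rw [hYt] at h2
      rcases hcross z with h3 | h3 <;> omega
    · refine Set.disjoint_left.2 (fun z h1 h2 => ?_)
      rw [hYt] at h1
      rw [hYf] at h2
      rcases hcross z with h3 | h3 <;> omega
    · exact absurd rfl hij
  · rintro (_ | _) (_ | _)
    · refine Set.disjoint_left.2 (fun z h1 h2 => ?_)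
      rw [hXf] at h1
      rw [hYf] at h2
      omega
    · refine Set.disjoint_left.2 (fun z h1 h2 => ?_)
      rw [hXf] at h1
      rw [hYt] at h2
      rcases hcross z with h3 | h3 <;> omega
    · refine Set.disjoint_left.2 (fun z h1 h2 => ?_)
      rw [hXt] at h1
      rw [hYf] at h2
      rcases hcross z with h3 | h3 <;> omega
    · refine Set.disjoint_left.2 (fun z h1 h2 => ?_)
      rw [hXt] at h1
      rw [hYt] at h2
      omega
  · rintro (_ | _)
    · rintro _ ⟨z, hz, rfl⟩
      have hz' : ¬ (q z ≤ -R) := hz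
      change b ^ m • z ∈ X false
      rw [hXf, hbm]
      omega
    · rintro _ ⟨z, hz, rfl⟩
      have hz' : ¬ (p z - i₀ ≤ -R) := hz
      change a ^ m • z ∈ X true
      rw [hXt, ham]
      omega
  · rintro (_ | _)
    · rintro _ ⟨z, hz, rfl⟩
      have hz' : ¬ ((R : ℤ) ≤ q z) := hz
      change (b ^ m)⁻¹ • z ∈ Y false
      rw [hYf, hbm']
      omega
    · rintro _ ⟨z, hz, rfl⟩
      have hz' : ¬ ((R : ℤ) ≤ p z - i₀) := hz
      change (a ^ m)⁻¹ • z ∈ Y true
      rw [hYt, ham']
      omega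

end action

end Pool.Agent.Helper84.Cr
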