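import Pool.Agent.Helper84.Cr.J
import Pool.Agent.Helper84.Cr.G
import Pool.Agent.Helper84.Cm.N

/-!
# Normal subgroups which act on trees
-/

set_option autoImplicit false

namespace Pool.Agent.Helper84.Cr

open Pool.Agent.Helper270.Tree Pool.Agent.Q152.TA Pool.Agent.Y462.SS
open Pool.Agent.Q152.WP Pool.Agent.Q91.FJ
open Pool.Agent.Helper84.Cm (Lamp shift shift_apply)

/-! ### the free group of rank two has no finite rank -/

/-- the homomorphism to the wreath product -/
noncomputable def θ : FreeGroup Bool →* Lamp ℚ :=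
  FreeGroup.lift (fun i : Bool => if i then SemidirectProduct.inr (Multiplicative.ofAdd (1 : ℤ)) else
    SemidirectProduct.inl (Multiplicative.ofAdd (Finsupp.single (0 : ℤ) (1 : ℚ))))

/-- the kernel of the projection to the integers -/
noncomputable def θL : Subgroup (FreeGroup Bool) :=
  ((SemidirectProduct.rightHom : Lamp ℚ →* Multiplicative ℤ).comp θ).ker

theorem θ_right {x : FreeGroup Bool} (hx : x ∈ θL) : (θ x).right = 1 := hx

/-- the characters -/
noncomputable def θχ (j : ℤ) : Additive θL →+ ℚ where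
  toFun x := (Multiplicative.toAdd (θ ((Additive.toMul x : θL) : FreeGroup Bool)).left : ℤ →₀ ℚ) j
  map_zero' := by
    change (Multiplicative.toAdd (θ (1 : FreeGroup Bool)).left : ℤ →₀ ℚ) j = 0
    rw [map_one]
    rfl
  map_add' x y := by
    change (Multiplicative.toAdd (θ (((Additive.toMul x : θL) : FreeGroup Bool) *
      ((Additive.toMul y : θL) : FreeGroup Bool))).left : ℤ →₀ ℚ) j = _
    rw [map_mul, SemidirectProduct.mul_left, θ_right (Additive.toMul x : θL).2, map_one]
    rfl

/-- the generators -/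
noncomputable def θx (i : ℤ) : FreeGroup Bool :=
  FreeGroup.of true ^ i * FreeGroup.of false * (FreeGroup.of true ^ i)⁻¹

theorem θ_x (i : ℤ) : θ (θx i) = SemidirectProduct.inl (shift ℚ (Multiplicative.ofAdd i)
    (Multiplicative.ofAdd (Finsupp.single (0 : ℤ) (1 : ℚ)))) := by
  have h1 : θ (FreeGroup.of true) = SemidirectProduct.inr (Multiplicative.ofAdd (1 : ℤ)) := by
    unfold θ
    rw [FreeGroup.lift_apply_of]
    rfl
  have h2 : θ (FreeGroup.of false) =
      SemidirectProduct.inl (Multiplicative.ofAdd (Finsupp.single (0 : ℤ) (1 : ℚ))) := by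
    unfold θ
    rw [FreeGroup.lift_apply_of]
    rfl
  have h3 : (Multiplicative.ofAdd (1 : ℤ)) ^ i = Multiplicative.ofAdd i := by
    rw [← ofAdd_zsmul, smul_eq_mul, mul_one]
  unfold θx
  rw [map_mul, map_mul, map_inv, map_zpow, h1, h2, ← map_zpow, h3, SemidirectProduct.inl_aut,
    map_inv]

theorem θx_mem (i : ℤ) : θx i ∈ θL := by
  change (θ (θx i)).right = 1
  rw [θ_x]
  rfl

theorem θχ_x (i j : ℤ) : θχ j (Additive.ofMul ⟨θx i, θx_mem i⟩) = if j = i then 1 else 0 := by
  change (Multiplicative.toAdd (θ (θx i)).left : ℤ →₀ ℚ) j = _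
  rw [θ_x]
  change (Multiplicative.toAdd (shift ℚ (Multiplicative.ofAdd i)
    (Multiplicative.ofAdd (Finsupp.single (0 : ℤ) (1 : ℚ)))) : ℤ →₀ ℚ) j = _
  rw [shift_apply, Finsupp.single_apply]
  by_cases h : j = i
  · rw [if_pos h, if_pos (by rw [h, sub_self])]
  · rw [if_neg h, if_neg (fun h0 => h (by linarith))]

theorem free_not_rk (n : ℕ) : ¬ Rk n (⊤ : Subgroup (FreeGroup Bool)) := by
  intro h
  obtain ⟨hfin, hr⟩ := (h.sub (le_top : θL ≤ ⊤)).fin
  have hli : LinearIndependent ℚ (fun j : Fin (n + 1) => θχ (j : ℤ)) := by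
    rw [Fintype.linearIndependent_iff]
    intro g hg i
    have h1 := DFunLike.congr_fun hg (Additive.ofMul ⟨θx (i : ℤ), θx_mem _⟩)
    have h2 : (∑ j : Fin (n + 1), g j • θχ (j : ℤ)) (Additive.ofMul ⟨θx (i : ℤ), θx_mem _⟩) =
        ∑ j : Fin (n + 1), g j * (if ((j : ℕ) : ℤ) = ((i : ℕ) : ℤ) then 1 else 0) := by
      rw [AddMonoidHom.finsetSum_apply]
      refine Finset.sum_congr rfl fun j _ => ?_
      change g j • θχ (j : ℤ) _ = _
      rw [θχ_x, smul_eq_mul]
    rw [h2, Finset.sum_eq_single i] at h1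
    · rw [if_pos rfl, mul_one] at h1
      exact h1
    · intro b _ hb
      rw [if_neg (fun h0 => hb (Fin.ext (by exact_mod_cast h0))), mul_zero]
    · intro h0
      exact absurd (Finset.mem_univ _) h0
  have h1 := hli.fintype_card_le_finrank
  rw [Fintype.card_fin] at h1
  omega

end Pool.Agent.Helper84.Cr
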