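import Pool.Agent.Helper84.Cr.K

/-!
# Automorphisms of groups acting on trees with commensurable stabilizers
-/

set_option autoImplicit false

namespace Pool.Agent.Helper84.Cr

open Pool.Agent.Helper270.Tree Pool.Agent.Q152.TA Pool.Agent.Y462.SS
open Pool.Agent.Q152.WP Pool.Agent.Q91.FJ

section inv

variable {N V : Type} [Group N] [MulAction N V] {T : SimpleGraph V}

/-- each axis has a translate such that the intersection is finite -/
def NonElementary (N : Type) {V : Type} [Group N] [MulAction N V] (T : SimpleGraph V) : Prop :=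
  ∀ (h : N) (L : ℤ → V) (l : ℕ), IsAxis T h L l → ∃ g : N, {i : ℤ | ∃ j : ℤ, L i = g • L j}.Finite

theorem stab_comm (h : TreeAct N T) (hcom : ∀ u v : V, T.Adj u v →
    (MulAction.stabilizer N u).relIndex (MulAction.stabilizer N v) ≠ 0) (u v : V) :
    (MulAction.stabilizer N u).relIndex (MulAction.stabilizer N v) ≠ 0 := by
  obtain ⟨p⟩ := h.isTree.connected.preconnected u v
  induction p with
  | nil => rw [Subgroup.relIndex_self]; exact one_ne_zero
  | cons hadj _ ih => exact Subgroup.relIndex_ne_zero_trans (hcom _ _ hadj) ih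

theorem axis_pow {g : N} {L : ℤ → V} {l : ℕ} (hax : IsAxis T g L l) {k : ℕ} (hk : 0 < k) :
    IsAxis T (g ^ k) L (k * l) where
  line := hax.line
  pos := Nat.mul_pos hk hax.pos
  smul i := by
    have h1 := hax.smul_zpow (k : ℤ) i
    rw [zpow_natCast] at h1
    rw [h1]
    push_cast
    rfl

theorem axis_conj (h : TreeAct N T) {a : N} {L : ℤ → V} {l : ℕ} (hax : IsAxis T a L l) (g : N) :
    IsAxis T (g * a * g⁻¹) (fun i => g • L i) l where
  line :=
    { adj := fun i => h.adj g _ _ (hax.line.adj i)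
      nb := fun i hi => hax.line.nb i (smul_left_cancel g hi) }
  pos := hax.pos
  smul i := by
    have h1 : (g * a * g⁻¹) • g • L i = g • a • L i := by
      rw [← mul_smul, ← mul_smul]
      congr 1
      group
    rw [h1, hax.smul]

/-- **commensurated subgroups of finite rank fix vertices** -/
theorem elliptic (h : TreeAct N T) (hne : NonElementary N T) (E' : Subgroup N)
    (hpow : ∀ g : N, ∀ a ∈ E', ∃ k : ℕ, 0 < k ∧ (g * a * g⁻¹) ^ k ∈ E') (hfg : E'.FG) {n : ℕ}
    (hrk : Rk n E') : ∃ w : V, E' ≤ MulAction.stabilizer N w := by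
  classical
  -- all elements fix vertices
  have hell : ∀ a ∈ E', ∃ w : V, a • w = w := by
    intro a ha
    by_contra hcon
    push Not at hcon
    obtain ⟨L, l, hax⟩ := h.exists_axis hcon
    obtain ⟨g, hg⟩ := hne a L l hax
    obtain ⟨k, hk, hk'⟩ := hpow g a ha
    have hb : g * a ^ k * g⁻¹ ∈ E' := by
      rw [← conj_pow]
      exact hk'
    obtain ⟨m, hm, hinj⟩ := ping_pong h (axis_pow hax hk)
      (axis_conj h (axis_pow hax hk) g) hg
    set f : FreeGroup Bool →* N :=
      FreeGroup.lift (fun i : Bool => if i then (a ^ k) ^ m else (g * a ^ k * g⁻¹) ^ m) with hf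
    have h1 : E'.comap f = ⊤ := by
      rw [eq_top_iff]
      intro x _
      rw [Subgroup.mem_comap]
      induction x using FreeGroup.induction_on with
      | C1 => rw [map_one]; exact one_mem _
      | of i =>
        rw [hf, FreeGroup.lift_apply_of]
        by_cases hi : i = true
        · rw [if_pos hi]
          exact pow_mem (pow_mem ha k) m
        · rw [if_neg hi]
          exact pow_mem hb m
      | inv_of i ih =>
        rw [map_inv]
        exact inv_mem (ih trivial)
      | mul x y hx hy =>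
        rw [map_mul]
        exact mul_mem (hx trivial) (hy trivial)
    have h2 := rk_comap f hinj hrk
    rw [h1] at h2
    exact free_not_rk n h2
  -- Serre's lemma
  have hfg' : Group.FG E' := (Group.fg_iff_subgroup_fg _).2 hfg
  have hTE : TreeAct E' T :=
    { isTree := h.isTree
      adj := fun g u w hh => h.adj (g : N) u w hh
      noInv := fun g u w hh hh' => h.noInv (g : N) u w hh hh' }
  by_contra hcon
  push Not at hcon
  obtain ⟨a, ha⟩ := hTE.exists_hyperbolic hfg' (fun w => by
    obtain ⟨x, hx, hxw⟩ := Set.not_subset.1 (hcon w)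
    exact ⟨⟨x, hx⟩, hxw⟩)
  obtain ⟨w, hw⟩ := hell a a.2
  exact ha w hw

/-- the images of the stabilizers under automorphisms fix vertices -/
theorem elliptic_image (h : TreeAct N T) (hcom : ∀ u v : V, T.Adj u v →
    (MulAction.stabilizer N u).relIndex (MulAction.stabilizer N v) ≠ 0)
    (hne : NonElementary N T) (v : V) (hfg : (MulAction.stabilizer N v).FG) {n : ℕ}
    (hfr : Rk n (MulAction.stabilizer N v)) (ψ : N ≃* N) :
    ∃ w : V, (MulAction.stabilizer N v).map ψ.toMonoidHom ≤ MulAction.stabilizer N w := by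
  refine elliptic h hne _ ?_ (Pool.Agent.Helper84.FJ.fg_map _ hfg) (n := n) ?_
  · rintro g _ ⟨e, he, rfl⟩
    obtain ⟨g₀, rfl⟩ := ψ.surjective g
    have h1 : g₀ * e * g₀⁻¹ ∈ MulAction.stabilizer N (g₀ • v) := by
      have he' : e • v = v := he
      change (g₀ * e * g₀⁻¹) • g₀ • v = g₀ • v
      rw [← mul_smul, inv_mul_cancel_right, mul_smul, he']
    obtain ⟨k, hk, hk'⟩ := exists_pow (stab_comm h hcom v (g₀ • v)) h1
    refine ⟨k, hk, _, hk', ?_⟩
    change ψ ((g₀ * e * g₀⁻¹) ^ k) = (ψ g₀ * ψ e * (ψ g₀)⁻¹) ^ k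
    rw [map_pow, map_mul, map_mul, map_inv]
  · have h1 := rk_comap ψ.symm.toMonoidHom ψ.symm.injective hfr
    have h2 : (MulAction.stabilizer N v).comap ψ.symm.toMonoidHom =
        (MulAction.stabilizer N v).map ψ.toMonoidHom := by
      ext x
      constructor
      · intro hx
        exact ⟨ψ.symm x, hx, ψ.apply_symm_apply x⟩
      · rintro ⟨y, hy, rfl⟩
        change ψ.symm (ψ y) ∈ MulAction.stabilizer N v
        rw [ψ.symm_apply_apply]
        exact hy
    rwa [h2] at h1

/-- **the commensurability class of the stabilizers is invariant** -/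
theorem class_inv (h : TreeAct N T) (hcom : ∀ u v : V, T.Adj u v →
    (MulAction.stabilizer N u).relIndex (MulAction.stabilizer N v) ≠ 0)
    (hne : NonElementary N T) (v : V) (hfg : (MulAction.stabilizer N v).FG) {n : ℕ}
    (hfr : Rk n (MulAction.stabilizer N v)) (ψ : N ≃* N) :
    ((MulAction.stabilizer N v).map ψ.toMonoidHom).relIndex (MulAction.stabilizer N v) ≠ 0 := by
  obtain ⟨w, hw⟩ := elliptic_image h hcom hne v hfg hfr ψ.symm
  have h1 : MulAction.stabilizer N v ≤ (MulAction.stabilizer N w).map ψ.toMonoidHom := by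
    intro x hx
    refine ⟨ψ.symm x, hw ⟨x, hx, rfl⟩, ψ.apply_symm_apply x⟩
  have h2 : ((MulAction.stabilizer N v).map ψ.toMonoidHom).relIndex
      ((MulAction.stabilizer N w).map ψ.toMonoidHom) ≠ 0 := by
    rw [Subgroup.relIndex_map_map_of_injective _ _ ψ.injective]
    exact stab_comm h hcom v w
  exact fun h0 => h2 (Subgroup.relIndex_eq_zero_of_le_right h1 h0)

theorem class_comm (h : TreeAct N T) (hcom : ∀ u v : V, T.Adj u v →
    (MulAction.stabilizer N u).relIndex (MulAction.stabilizer N v) ≠ 0)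
    (hne : NonElementary N T) (v : V) (hfg : (MulAction.stabilizer N v).FG) {n : ℕ}
    (hfr : Rk n (MulAction.stabilizer N v)) (ψ : N ≃* N) :
    Subgroup.Commensurable ((MulAction.stabilizer N v).map ψ.toMonoidHom)
      (MulAction.stabilizer N v) := by
  refine ⟨class_inv h hcom hne v hfg hfr ψ, ?_⟩
  have h1 := class_inv h hcom hne v hfg hfr ψ.symm
  rw [← Subgroup.relIndex_map_map_of_injective (f := ψ.toMonoidHom) _ _ ψ.injective] at h1
  have h2 : ((MulAction.stabilizer N v).map ψ.symm.toMonoidHom).map ψ.toMonoidHom =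
      MulAction.stabilizer N v := by
    ext x
    constructor
    · rintro ⟨_, ⟨y, hy, rfl⟩, rfl⟩
      change ψ (ψ.symm y) ∈ MulAction.stabilizer N v
      rw [ψ.apply_symm_apply]
      exact hy
    · intro hx
      exact ⟨_, ⟨x, hx, rfl⟩, ψ.apply_symm_apply x⟩
  change (((MulAction.stabilizer N v).map ψ.symm.toMonoidHom).map ψ.toMonoidHom).relIndex _ ≠ 0 at h1
  rw [h2] at h1
  exact h1

/-- commensurated subgroups -/
theorem elliptic' (h : TreeAct N T) (hne : NonElementary N T) (E' : Subgroup N)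
    (hE : Pool.Agent.X201.FJ.Commensurated E') (hfg : E'.FG) {n : ℕ} (hrk : Rk n E') :
    ∃ w : V, E' ≤ MulAction.stabilizer N w := by
  refine elliptic h hne E' (fun g a ha => ?_) hfg hrk
  obtain ⟨k, hk, hk'⟩ := exists_pow (hE g) ha
  refine ⟨k, hk, ?_⟩
  have h1 : g * a ^ k * g⁻¹ ∈ E' := hk'
  rwa [conj_pow]

end inv

variable {C : ∀ (G : Type) [Group G], Prop}

/-- **extensions with kernels which act on trees** -/
theorem kernels' (hC : Pool.Agent.Y110.FJ.ClosedE C) (hS : HasSolvable C)
    (hQ : ∀ n : ℕ, C (Matrix.GeneralLinearGroup (Fin n) ℚ)) (hF : Pool.Agent.R684.FP.FbC C)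
    {G V : Type} [Group G] (N : Subgroup G) [hNn : N.Normal] (hGN : C (G ⧸ N))
    [MulAction N V] (T : SimpleGraph V) (hT : T.IsTree)
    (hact : ∀ (g : N) (u v : V), T.Adj u v → T.Adj (g • u) (g • v))
    (hinv : ∀ (g : N) (u v : V), T.Adj u v → ¬ (g • u = v ∧ g • v = u))
    (htf : ∀ (v : V) (x : N), x • v = v → IsOfFinOrder x → x = 1)
    (hcom : ∀ u v : V, T.Adj u v →
      (MulAction.stabilizer N u).relIndex (MulAction.stabilizer N v) ≠ 0)
    (hne : NonElementary N T) (hfg : ∀ v : V, (MulAction.stabilizer N v).FG)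
    (hfr : ∃ (v : V) (n : ℕ), Rk n (MulAction.stabilizer N v)) : C G := by
  have hTA : TreeAct N T := ⟨hT, hact, hinv⟩
  obtain ⟨v₀, n, h0⟩ := hfr
  have hall : ∀ w : V, Rk n (MulAction.stabilizer N w) := fun w =>
    h0.comm ⟨stab_comm hTA hcom v₀ w, stab_comm hTA hcom w v₀⟩
  refine kernels hC hS hQ hF N hGN T hT hact hinv htf hcom (fun g v => ?_) ⟨v₀, n, h0⟩
  have h1 := class_inv hTA hcom hne v (hfg v) (hall v) (MulAut.conjNormal g : MulAut N)
  have h2 : (((MulAction.stabilizer N v).map N.subtype).map (MulAut.conj g).toMonoidHom) =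
      ((MulAction.stabilizer N v).map (MulAut.conjNormal g : MulAut N).toMonoidHom).map
        N.subtype := by
    rw [Subgroup.map_map, Subgroup.map_map]
    congr 1
  rw [h2, Subgroup.relIndex_map_map_of_injective _ _ N.subtype_injective]
  exact h1

end Pool.Agent.Helper84.Cr
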