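import Pool.Agent.Helper84.Cr.L

/-!
# Commensurated subgroups without free subgroups, and kernels which act on trees
-/

set_option autoImplicit false

namespace Pool.Agent.Helper84.Cr

open Pool.Agent.Helper270.Tree Pool.Agent.Q152.TA Pool.Agent.Y462.SS
open Pool.Agent.Q152.WP Pool.Agent.Q91.FJ Pool.Agent.X201.FJ Pool.Agent.X201.FJ.AC
open Pool.Agent.Helper84.Cm (cmap cmap_eq_one)

/-- the subgroup contains no free subgroup of rank two -/
def NoFree {N : Type} [Group N] (S : Subgroup N) : Prop :=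
  ∀ f : FreeGroup Bool →* N, (∀ x, f x ∈ S) → ¬ Function.Injective f

theorem free_not_solvable : ¬ Group.IsSolvable (FreeGroup Bool) := by
  intro h
  let f : FreeGroup Bool →* Equiv.Perm (Fin 5) :=
    FreeGroup.lift (fun b => if b then finRotate 5 else Equiv.swap 0 (finRotate 5 0))
  have hf : Function.Surjective f := by
    rw [← MonoidHom.range_eq_top]
    have h1 := Equiv.Perm.closure_cycle_adjacent_swap (σ := finRotate 5) isCycle_finRotate
      support_finRotate 0
    rw [eq_top_iff, ← h1, Subgroup.closure_le]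
    rintro x (rfl | rfl)
    · exact ⟨FreeGroup.of true, by simp [f]⟩
    · exact ⟨FreeGroup.of false, by simp [f]⟩
  have h2 : Group.IsSolvable (Equiv.Perm (Fin 5)) := Group.isSolvable_of_surjective hf
  exact Equiv.Perm.not_isSolvable (Fin 5) (by simp) h2

theorem noFree_of_solvable {N : Type} [Group N] {S : Subgroup N} (h : Group.IsSolvable S) :
    NoFree S := by
  intro f hf hinj
  refine free_not_solvable ?_
  exact Group.isSolvable_of_isSolvable_injective (f := f.codRestrict S hf) (fun x y hxy =>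
    hinj (congrArg Subtype.val hxy))

section inv

variable {N V : Type} [Group N] [MulAction N V] {T : SimpleGraph V}

/-- **commensurated subgroups without free subgroups fix vertices** -/
theorem elliptic_nf (h : TreeAct N T) (hne : NonElementary N T) (E' : Subgroup N)
    (hpow : ∀ g : N, ∀ a ∈ E', ∃ k : ℕ, 0 < k ∧ (g * a * g⁻¹) ^ k ∈ E') (hfg : E'.FG)
    (S : Subgroup N) (hS : S.relIndex E' ≠ 0) (hnf : NoFree S) :
    ∃ w : V, E' ≤ MulAction.stabilizer N w := by
  classical
  have hell : ∀ a ∈ E', ∃ w : V, a • w = w := by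
    intro a ha
    by_contra hcon
    push Not at hcon
    obtain ⟨L, l, hax⟩ := h.exists_axis hcon
    obtain ⟨g, hg⟩ := hne a L l hax
    obtain ⟨k, hk, hk'⟩ := hpow g a ha
    obtain ⟨k₁, hk₁, hk₁'⟩ := exists_pow hS (pow_mem ha k)
    obtain ⟨k₂, hk₂, hk₂'⟩ := exists_pow hS hk'
    have hK : 0 < k * (k₁ * k₂) := Nat.mul_pos hk (Nat.mul_pos hk₁ hk₂)
    have ha' : a ^ (k * (k₁ * k₂)) ∈ S := by
      rw [pow_mul, pow_mul]
      exact pow_mem hk₁' k₂
    have hb' : g * a ^ (k * (k₁ * k₂)) * g⁻¹ ∈ S := by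
      rw [← conj_pow, mul_comm k₁ k₂, pow_mul, pow_mul]
      exact pow_mem hk₂' k₁
    obtain ⟨m, hm, hinj⟩ := ping_pong h (axis_pow hax hK)
      (axis_conj h (axis_pow hax hK) g) hg
    refine hnf _ (fun x => ?_) hinj
    induction x using FreeGroup.induction_on with
    | C1 => rw [map_one]; exact one_mem _
    | of i =>
      rw [FreeGroup.lift_apply_of]
      by_cases hi : i = true
      · rw [if_pos hi]
        exact pow_mem ha' m
      · rw [if_neg hi]
        exact pow_mem hb' m
    | inv_of i ih =>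
      rw [map_inv]
      exact inv_mem ih
    | mul x y hx hy =>
      rw [map_mul]
      exact mul_mem hx hy
  -- Serre's lemma
  have hfg' : Group.FG E' := (Group.fg_iff_subgroup_fg _).2 hfg
  have hTE : TreeAct E' T :=
    { isTree := h.isTree
      adj := fun g u w hh => h.adj (g : N) u w hh
      noInv := fun g u w hh hh' => h.noInv (g : N) u w hh hh' }
  by_contra hcon
  push Not at hcon
  obtain ⟨a, ha⟩ := hTE.exists_hyperbolic hfg' (fun w => by
    obtain ⟨x, hx, hxw⟩ := Set.not_subset.1 (hcon w)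
    exact ⟨⟨x, hx⟩, hxw⟩)
  obtain ⟨w, hw⟩ := hell a a.2
  exact ha w hw

/-- commensurated subgroups -/
theorem elliptic_nf' (h : TreeAct N T) (hne : NonElementary N T) (E' : Subgroup N)
    (hE : Pool.Agent.X201.FJ.Commensurated E') (hfg : E'.FG) (hnf : NoFree E') :
    ∃ w : V, E' ≤ MulAction.stabilizer N w := by
  refine elliptic_nf h hne E' (fun g a ha => ?_) hfg E' ?_ hnf
  · obtain ⟨k, hk, hk'⟩ := exists_pow (hE g) ha
    refine ⟨k, hk, ?_⟩
    have h1 : g * a ^ k * g⁻¹ ∈ E' := hk'
    rwa [conj_pow]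
  · rw [Subgroup.relIndex_self]; exact one_ne_zero

/-- the images of the stabilizers under automorphisms fix vertices -/
theorem elliptic_image_nf (h : TreeAct N T) (hcom : ∀ u v : V, T.Adj u v →
    (MulAction.stabilizer N u).relIndex (MulAction.stabilizer N v) ≠ 0)
    (hne : NonElementary N T) (v : V) (hfg : (MulAction.stabilizer N v).FG)
    {v₀ : V} {S : Subgroup N} (hS : S.relIndex (MulAction.stabilizer N v₀) ≠ 0) (hnf : NoFree S)
    (ψ : N ≃* N) :
    ∃ w : V, (MulAction.stabilizer N v).map ψ.toMonoidHom ≤ MulAction.stabilizer N w := by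
  refine elliptic_nf h hne _ ?_ (Pool.Agent.Helper84.FJ.fg_map _ hfg) (S.map ψ.toMonoidHom) ?_ ?_
  · rintro g _ ⟨e, he, rfl⟩
    obtain ⟨g₀, rfl⟩ := ψ.surjective g
    have h1 : g₀ * e * g₀⁻¹ ∈ MulAction.stabilizer N (g₀ • v) := by
      have he' : e • v = v := he
      change (g₀ * e * g₀⁻¹) • g₀ • v = g₀ • v
      rw [← mul_smul, inv_mul_cancel_right, mul_smul, he']
    obtain ⟨k, hk, hk'⟩ := exists_pow (stab_comm h hcom v (g₀ • v)) h1
    refine ⟨k, hk, _, hk', ?_⟩
    change ψ ((g₀ * e * g₀⁻¹) ^ k) = (ψ g₀ * ψ e * (ψ g₀)⁻¹) ^ k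
    rw [map_pow, map_mul, map_mul, map_inv]
  · rw [Subgroup.relIndex_map_map_of_injective _ _ ψ.injective]
    exact Subgroup.relIndex_ne_zero_trans hS (stab_comm h hcom v₀ v)
  · intro f hf hinj
    refine hnf (ψ.symm.toMonoidHom.comp f) (fun x => ?_) (ψ.symm.injective.comp hinj)
    obtain ⟨y, hy, hyx⟩ := hf x
    change ψ.symm (f x) ∈ S
    rw [← hyx]
    change ψ.symm (ψ y) ∈ S
    rw [ψ.symm_apply_apply]
    exact hy

/-- **the commensurability class of the stabilizers is invariant** -/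
theorem class_inv_nf (h : TreeAct N T) (hcom : ∀ u v : V, T.Adj u v →
    (MulAction.stabilizer N u).relIndex (MulAction.stabilizer N v) ≠ 0)
    (hne : NonElementary N T) (v : V) (hfg : (MulAction.stabilizer N v).FG)
    {v₀ : V} {S : Subgroup N} (hS : S.relIndex (MulAction.stabilizer N v₀) ≠ 0) (hnf : NoFree S)
    (ψ : N ≃* N) :
    ((MulAction.stabilizer N v).map ψ.toMonoidHom).relIndex (MulAction.stabilizer N v) ≠ 0 := by
  obtain ⟨w, hw⟩ := elliptic_image_nf h hcom hne v hfg hS hnf ψ.symm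
  have h1 : MulAction.stabilizer N v ≤ (MulAction.stabilizer N w).map ψ.toMonoidHom := by
    intro x hx
    refine ⟨ψ.symm x, hw ⟨x, hx, rfl⟩, ψ.apply_symm_apply x⟩
  have h2 : ((MulAction.stabilizer N v).map ψ.toMonoidHom).relIndex
      ((MulAction.stabilizer N w).map ψ.toMonoidHom) ≠ 0 := by
    rw [Subgroup.relIndex_map_map_of_injective _ _ ψ.injective]
    exact stab_comm h hcom v w
  exact fun h0 => h2 (Subgroup.relIndex_eq_zero_of_le_right h1 h0)

end inv

end Pool.Agent.Helper84.Cr
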