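import Pool.Agent.Helper84.Cr.M

/-!
# Kernels which act on trees such that no element centralizes a subgroup of finite index of a stabilizer
-/

set_option autoImplicit false

namespace Pool.Agent.Helper84.Cr

open Pool.Agent.Helper270.Tree Pool.Agent.Q152.TA Pool.Agent.Y462.SS
open Pool.Agent.Q152.WP Pool.Agent.Q91.FJ Pool.Agent.X201.FJ Pool.Agent.X201.FJ.AC
open Pool.Agent.Helper84.Cm (cmap cmap_eq_one)

variable {C : ∀ (G : Type) [Group G], Prop}

/-- `E` has a subgroup `E₀` of finite index such that no element `g ≠ 1` of `E₀` commutes with all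
elements of a subgroup of finite index. -/
def VICC (E : Type) [Group E] : Prop :=
  ∃ E₀ : Subgroup E, E₀.FiniteIndex ∧
    ∀ g ∈ E₀, (∃ A : Subgroup E, A.FiniteIndex ∧ ∀ a ∈ A, g * a = a * g) → g = 1

theorem icc_kernels (hC : Pool.Agent.Y110.FJ.ClosedE C) (hF : Pool.Agent.R684.FP.FbC C)
    {G V : Type} [Group G] (N : Subgroup G) [hNn : N.Normal] (hGN : C (G ⧸ N))
    [MulAction N V] (T : SimpleGraph V) (hT : T.IsTree)
    (hact : ∀ (g : N) (u v : V), T.Adj u v → T.Adj (g • u) (g • v))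
    (hinv : ∀ (g : N) (u v : V), T.Adj u v → ¬ (g • u = v ∧ g • v = u))
    (hcom : ∀ u v : V, T.Adj u v →
      (MulAction.stabilizer N u).relIndex (MulAction.stabilizer N v) ≠ 0)
    (hnorm : ∀ (v : V) (F : Subgroup N), F ≤ MulAction.stabilizer N v → Finite F →
      (∀ x ∈ MulAction.stabilizer N v, ∀ y ∈ F, x * y * x⁻¹ ∈ F) → F = ⊥)
    (v₀ : V) (hV : VICC ↥((MulAction.stabilizer N v₀).map N.subtype))
    (hG : ∀ g : G, (((MulAction.stabilizer N v₀).map N.subtype).map
      (MulAut.conj g).toMonoidHom).relIndex ((MulAction.stabilizer N v₀).map N.subtype) ≠ 0)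
    (hAbs : C (AbsComm ↥((MulAction.stabilizer N v₀).map N.subtype))) : C G := by
  have hTA : TreeAct N T := ⟨hT, hact, hinv⟩
  set E : Subgroup G := (MulAction.stabilizer N v₀).map N.subtype with hE
  have hN : ∀ g ∈ (⊤ : Subgroup G), (E.comap (MulAut.conj g).toMonoidHom).relIndex E ≠ 0 :=
    fun g _ => comap_rel (hG g⁻¹)
  obtain ⟨f, hf⟩ : ∃ f : G →* AbsComm E × (G ⧸ N), f =
    ((cmap hN).comp Subgroup.topEquiv.symm.toMonoidHom).prod (QuotientGroup.mk' N) := ⟨_, rfl⟩
  have hk : ∀ g ∈ f.ker, g ∈ N ∧ ∃ A : Subgroup E, A.FiniteIndex ∧ ∀ a ∈ A, g * a = a * g := by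
    intro g hg
    rw [MonoidHom.mem_ker, hf] at hg
    have h1 := congrArg Prod.fst hg
    have h2 := congrArg Prod.snd hg
    refine ⟨(QuotientGroup.eq_one_iff g).1 h2, ?_⟩
    obtain ⟨A, hA, h3⟩ := cmap_eq_one hN ⟨g, Subgroup.mem_top g⟩ h1
    exact ⟨A, hA, h3⟩
  have hle : f.ker ≤ N := fun g hg => (hk g hg).1
  -- the quotient
  have hQ : C (G ⧸ f.ker) := by
    refine hC.base.of_injective _ _ (QuotientGroup.kerLift f) (QuotientGroup.kerLift_injective f) ?_
    exact hC.base.prod _ _ hAbs hGN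
  -- the kernel is free
  obtain ⟨M, hM⟩ : ∃ M : Subgroup N, M = f.ker.subgroupOf N := ⟨_, rfl⟩
  have htriv : ∀ (v : V) (m : M), m • v = v → m = 1 := by
    obtain ⟨E₀, hE₀, hicc⟩ := hV
    intro v
    have hS : ((E₀.map E.subtype).comap N.subtype).relIndex (MulAction.stabilizer N v) ≠ 0 := by
      have h3 : ((E₀.map E.subtype).comap N.subtype).relIndex (MulAction.stabilizer N v₀) ≠ 0 := by
        rw [Subgroup.relIndex_comap, ← hE]
        unfold Subgroup.relIndex
        rw [Subgroup.subgroupOf, Subgroup.comap_map_eq_self_of_injective E.subtype_injective]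
        exact hE₀.index_ne_zero
      exact Subgroup.relIndex_ne_zero_trans h3 (stab_comm hTA hcom v₀ v)
    obtain ⟨F, hF'⟩ : ∃ F : Subgroup N, F = M ⊓ MulAction.stabilizer N v := ⟨_, rfl⟩
    have hFS : ((E₀.map E.subtype).comap N.subtype).subgroupOf F = ⊥ := by
      rw [eq_bot_iff]
      rintro ⟨x, hx⟩ hxS
      rw [Subgroup.mem_subgroupOf] at hxS
      obtain ⟨e, he, hex⟩ := hxS
      have hex' : (e : G) = (x : G) := hex
      rw [hF'] at hx
      have hxM : x ∈ M := hx.1
      rw [hM, Subgroup.mem_subgroupOf] at hxM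
      obtain ⟨-, A, hA, h1⟩ := hk _ hxM
      have h2 : e = 1 := by
        refine hicc e he ⟨A, hA, fun a ha => Subtype.ext ?_⟩
        have h3 := h1 a ha
        change (e : G) * a = a * e
        rw [hex']
        exact h3
      have h3 : x = 1 := by
        apply Subtype.ext
        rw [← hex', h2]
        rfl
      rw [Subgroup.mem_bot]
      exact Subtype.ext h3
    have hFfin : Finite F := by
      have h1 : ((E₀.map E.subtype).comap N.subtype).relIndex F ≠ 0 := fun h0 =>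
        hS (Subgroup.relIndex_eq_zero_of_le_right (by rw [hF']; exact inf_le_right) h0)
      unfold Subgroup.relIndex at h1
      rw [hFS, Subgroup.index_bot] at h1
      exact Nat.finite_of_card_ne_zero h1
    have hFb : F = ⊥ := by
      refine hnorm v F (by rw [hF']; exact inf_le_right) hFfin (fun x hx y hy => ?_)
      rw [hF'] at hy ⊢
      have h1 : y ∈ M := hy.1
      have h2 : x * y * x⁻¹ ∈ M := by
        rw [hM, Subgroup.mem_subgroupOf] at h1 ⊢
        exact f.normal_ker.conj_mem _ h1 _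
      exact ⟨h2, (MulAction.stabilizer N v).mul_mem ((MulAction.stabilizer N v).mul_mem hx hy.2)
        ((MulAction.stabilizer N v).inv_mem hx)⟩
    rintro ⟨x, hx⟩ hxv
    have h1 : x ∈ F := by rw [hF']; exact ⟨hx, hxv⟩
    rw [hFb, Subgroup.mem_bot] at h1
    exact Subtype.ext h1
  have hfreeM : IsFreeGroup M := by
    have hP : (⊥ : Subgroup M) = ⨆ v : V, MulAction.stabilizer M v := by
      symm
      rw [eq_bot_iff]
      refine iSup_le fun v m hm => ?_
      exact htriv v m hm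
    have h1 : IsFreeGroup (M ⧸ (⊥ : Subgroup M)) :=
      Pool.Agent.N508.CS.t_tfr M V T hT (fun g u v h => hact g u v h)
        (fun g u v h => hinv g u v h) ⊥ hP
    exact IsFreeGroup.ofMulEquiv (QuotientGroup.quotientBot : M ⧸ (⊥ : Subgroup M) ≃* M)
  have hfree : IsFreeGroup f.ker := by
    have e : M ≃* f.ker := (MulEquiv.subgroupCongr hM).trans (Subgroup.subgroupOfEquivOfLe hle)
    exact IsFreeGroup.ofMulEquiv e
  exact Pool.Agent.R684.FP.free_ext hC hF f.ker hQ

/-- the case that the class of the stabilizers is invariant under automorphisms -/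
theorem icc_kernels' (hC : Pool.Agent.Y110.FJ.ClosedE C) (hF : Pool.Agent.R684.FP.FbC C)
    {G V : Type} [Group G] (N : Subgroup G) [hNn : N.Normal] (hGN : C (G ⧸ N))
    [MulAction N V] (T : SimpleGraph V) (hT : T.IsTree)
    (hact : ∀ (g : N) (u v : V), T.Adj u v → T.Adj (g • u) (g • v))
    (hinv : ∀ (g : N) (u v : V), T.Adj u v → ¬ (g • u = v ∧ g • v = u))
    (hcom : ∀ u v : V, T.Adj u v →
      (MulAction.stabilizer N u).relIndex (MulAction.stabilizer N v) ≠ 0)
    (hnorm : ∀ (v : V) (F : Subgroup N), F ≤ MulAction.stabilizer N v → Finite F →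
      (∀ x ∈ MulAction.stabilizer N v, ∀ y ∈ F, x * y * x⁻¹ ∈ F) → F = ⊥)
    (hne : NonElementary N T) (v₀ : V) (hV : VICC ↥((MulAction.stabilizer N v₀).map N.subtype))
    (hfg : (MulAction.stabilizer N v₀).FG) {S : Subgroup N} (hS : S.relIndex (MulAction.stabilizer N v₀) ≠ 0) (hnf : NoFree S)
    (hAbs : C (AbsComm ↥((MulAction.stabilizer N v₀).map N.subtype))) : C G := by
  have hTA : TreeAct N T := ⟨hT, hact, hinv⟩
  refine icc_kernels hC hF N hGN T hT hact hinv hcom hnorm v₀ hV (fun g => ?_) hAbs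
  have h1 := class_inv_nf hTA hcom hne v₀ hfg hS hnf (MulAut.conjNormal g : MulAut N)
  have h2 : (((MulAction.stabilizer N v₀).map N.subtype).map (MulAut.conj g).toMonoidHom) =
      ((MulAction.stabilizer N v₀).map (MulAut.conjNormal g : MulAut N).toMonoidHom).map
        N.subtype := by
    rw [Subgroup.map_map, Subgroup.map_map]
    congr 1
  rw [h2, Subgroup.relIndex_map_map_of_injective _ _ N.subtype_injective]
  exact h1

theorem fg_over {E : Type} [Group E] (E₀ : Subgroup E) (hfi : E₀.FiniteIndex) (hfg : E₀.FG) :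
    Group.FG E := by
  classical
  obtain ⟨S, hS⟩ := hfg
  have hfin : Finite (E ⧸ E₀) := inferInstance
  have hT : (Set.range (Quotient.out : E ⧸ E₀ → E)).Finite := Set.finite_range _
  refine ⟨⟨S ∪ hT.toFinset, ?_⟩⟩
  rw [eq_top_iff]
  intro x _
  have h1 : (Quotient.out (x : E ⧸ E₀) : E)⁻¹ * x ∈ E₀ := by
    rw [← QuotientGroup.eq]
    exact Quotient.out_eq _
  have h2 : x = (Quotient.out (x : E ⧸ E₀) : E) * ((Quotient.out (x : E ⧸ E₀) : E)⁻¹ * x) := by
    group
  rw [h2]
  refine mul_mem (Subgroup.subset_closure ?_) ?_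
  · rw [Finset.coe_union, Set.mem_union]
    exact Or.inr (by rw [Set.Finite.coe_toFinset]; exact ⟨_, rfl⟩)
  · refine Subgroup.closure_mono ?_ (hS.ge h1)
    rw [Finset.coe_union]
    exact Set.subset_union_left

theorem metab {E : Type} [Group E] {E₀ M : Subgroup E} {t : E} (ht : t ∈ E₀)
    (hn : ∀ g ∈ E₀, ∀ m ∈ M, g * m * g⁻¹ ∈ M) (hab : ∀ x ∈ M, ∀ y ∈ M, x * y = y * x)
    (hgen : ∀ g ∈ E₀, ∃ m ∈ M, ∃ k : ℤ, g = m * t ^ k) : Group.IsSolvable E₀ := by
  refine ⟨⟨2, ?_⟩⟩
  have h1 : derivedSeries E₀ 1 ≤ M.subgroupOf E₀ := by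
    rw [derivedSeries_succ, derivedSeries_zero, Subgroup.commutator_le]
    rintro ⟨x, hx⟩ _ ⟨y, hy⟩ _
    rw [Subgroup.mem_subgroupOf]
    obtain ⟨m₁, hm₁, a, rfl⟩ := hgen x hx
    obtain ⟨m₂, hm₂, b, rfl⟩ := hgen y hy
    change (m₁ * t ^ a) * (m₂ * t ^ b) * (m₁ * t ^ a)⁻¹ * (m₂ * t ^ b)⁻¹ ∈ M
    have h3 : t ^ b * (t ^ a)⁻¹ = (t ^ a)⁻¹ * t ^ b := by
      rw [← zpow_neg, ← zpow_add, ← zpow_add, add_comm]
    have h2 : (m₁ * t ^ a) * (m₂ * t ^ b) * (m₁ * t ^ a)⁻¹ * (m₂ * t ^ b)⁻¹ =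
        m₁ * (t ^ a * m₂ * (t ^ a)⁻¹) * (t ^ b * m₁⁻¹ * (t ^ b)⁻¹) * m₂⁻¹ := by
      calc _ = m₁ * t ^ a * m₂ * (t ^ b * (t ^ a)⁻¹) * m₁⁻¹ * (t ^ b)⁻¹ * m₂⁻¹ := by
            simp only [mul_inv_rev, mul_assoc]
        _ = _ := by
            rw [h3]
            simp only [mul_assoc]
    rw [h2]
    exact M.mul_mem (M.mul_mem (M.mul_mem hm₁ (hn _ (zpow_mem ht a) _ hm₂))
      (hn _ (zpow_mem ht b) _ (M.inv_mem hm₁))) (M.inv_mem hm₂)
  rw [derivedSeries_succ, eq_bot_iff]
  refine (Subgroup.commutator_mono h1 h1).trans ?_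
  rw [Subgroup.commutator_le]
  intro x hx y hy
  rw [Subgroup.mem_subgroupOf] at hx hy
  rw [Subgroup.mem_bot, commutatorElement_eq_one_iff_mul_comm]
  exact Subtype.ext (hab _ hx _ hy)

/-- **abelian-by-cyclic stabilizers** -/
theorem abCyc_kernels (hC : Pool.Agent.Y110.FJ.ClosedE C) (hS : HasSolvable C)
    (hQ : ∀ n : ℕ, C (Matrix.GeneralLinearGroup (Fin n) ℚ))
    (hP : ∀ (p : ℕ) [Fact p.Prime] (n : ℕ),
      C (Matrix.GeneralLinearGroup (Fin n) (RatFunc (ZMod p))))
    (hF : Pool.Agent.R684.FP.FbC C)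
    {G V : Type} [Group G] (N : Subgroup G) [hNn : N.Normal] (hGN : C (G ⧸ N))
    [MulAction N V] (T : SimpleGraph V) (hT : T.IsTree)
    (hact : ∀ (g : N) (u v : V), T.Adj u v → T.Adj (g • u) (g • v))
    (hinv : ∀ (g : N) (u v : V), T.Adj u v → ¬ (g • u = v ∧ g • v = u))
    (hcom : ∀ u v : V, T.Adj u v →
      (MulAction.stabilizer N u).relIndex (MulAction.stabilizer N v) ≠ 0)
    (hnorm : ∀ (v : V) (F : Subgroup N), F ≤ MulAction.stabilizer N v → Finite F →
      (∀ x ∈ MulAction.stabilizer N v, ∀ y ∈ F, x * y * x⁻¹ ∈ F) → F = ⊥)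
    (v₀ : V) (hE : Pool.Agent.Helper84.Cm.AbCyc ↥((MulAction.stabilizer N v₀).map N.subtype))
    (hor : NonElementary N T ∨ ∀ g : G, (((MulAction.stabilizer N v₀).map N.subtype).map
      (MulAut.conj g).toMonoidHom).relIndex ((MulAction.stabilizer N v₀).map N.subtype) ≠ 0) :
    C G := by
  have hAbs := Pool.Agent.Helper84.Cm.abs_mem hC.base (extClosed_of hC) hS hQ hP hE
  have hV : VICC ↥((MulAction.stabilizer N v₀).map N.subtype) := by
    obtain ⟨E₀, M, t, hfi, -, -, -, -, -, -, -, hicc⟩ := hE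
    exact ⟨E₀, hfi, hicc⟩
  rcases hor with hne | hG
  · obtain ⟨E₀, M, t, hfi, hfg, hM, ht, hn, hab, hgen, -, -⟩ := hE
    have h1 : Group.FG ↥((MulAction.stabilizer N v₀).map N.subtype) := fg_over E₀ hfi hfg
    have h2 : (MulAction.stabilizer N v₀).FG := by
      rw [← Group.fg_iff_subgroup_fg]
      exact Group.fg_of_surjective (f := (Subgroup.equivMapOfInjective (MulAction.stabilizer N v₀)
        N.subtype N.subtype_injective).symm.toMonoidHom) (MulEquiv.surjective _)
    have hsol : Group.IsSolvable E₀ := metab ht hn hab hgen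
    refine icc_kernels' hC hF N hGN T hT hact hinv hcom hnorm hne v₀ hV h2
      (S := (E₀.map (Subgroup.subtype _)).comap N.subtype) ?_ ?_ hAbs
    · rw [Subgroup.relIndex_comap]
      unfold Subgroup.relIndex
      rw [Subgroup.subgroupOf, Subgroup.comap_map_eq_self_of_injective (Subgroup.subtype_injective _)]
      exact hfi.index_ne_zero
    · intro f hf hinj
      have h3 : ∀ x, ((f x : N) : G) ∈ E₀.map (Subgroup.subtype _) := hf
      have h4 : NoFree (E₀.map (Subgroup.subtype _)) := by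
        refine noFree_of_solvable ?_
        exact Group.isSolvable_of_surjective (f := (Subgroup.equivMapOfInjective E₀ _
          (Subgroup.subtype_injective _)).toMonoidHom) (MulEquiv.surjective _)
      exact h4 (N.subtype.comp f) h3 (N.subtype_injective.comp hinj)
  · exact icc_kernels hC hF N hGN T hT hact hinv hcom hnorm v₀ hV hG hAbs

end Pool.Agent.Helper84.Cr
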